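import Pool.Agent.Helper81.C9.Com
import Pool.Agent.Helper14.C9.Fin

/-!
Project LT (MP_b8862a_ag), block C9: assembly of the adjoint case.
-/

set_option linter.unusedSectionVars false
set_option linter.unusedVariables false

open Matrix Module MH

namespace C9

theorem rank_Dl {n : Type*} [Fintype n] [DecidableEq n] (lv : n → ℤ) (k : ℤ) :
    (Dl lv k).rank = (Finset.univ.filter fun i => lv i = k).card := by
  classical
  rw [Dl, Matrix.rank_diagonal, Fintype.card_subtype]
  congr 1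
  refine Finset.filter_congr fun i _ => ?_
  split_ifs with h <;> simp [h]

namespace RD

variable {r N : ℕ} {D : RD r N}

theorem card_lv (D : RD r N) (k : ℤ) : (Finset.univ.filter fun i => D.lv i = k).card =
    (if k = 0 then r else 0) + (Finset.univ.filter fun a => D.lev (D.v a) = k).card := by
  rw [Finset.card_filter, Finset.card_filter, Fintype.sum_sum_type]
  congr 1
  show ∑ i : Fin r, (if (0 : ℤ) = k then 1 else 0) = _
  by_cases hk : k = 0
  · rw [if_pos hk, hk]
    simp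
  · rw [if_neg hk]
    simp [Ne.symm hk]

theorem LC_single (D : RD r N) (a : Fin r ⊕ Fin N) : D.LC (Pi.single a 1) = toC (D.L a) := by
  rw [LC, Finset.sum_eq_single a (fun b _ hb => by rw [Pi.single_eq_of_ne hb, zero_smul])
    (fun hc => absurd (Finset.mem_univ _) hc), Pi.single_eq_same, one_smul]

/-- the contraction with the adjoint representation is equivariant -/
theorem Ok.derC (h : D.Ok) (w : Fin r ⊕ Fin N → ℂ) (Y : Matrix (Fin r ⊕ Fin N) (Fin r ⊕ Fin N) ℂ) :
    FF D.M D.L (D.LC w * Y - Y * D.LC w) = D.LC w * FF D.M D.L Y - FF D.M D.L Y * D.LC w :=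
  FF_br (D.LC w) (h.jacC w) (h.skewM (h.skewC w)) Y

/-- the coordinates of the grading element -/
noncomputable def yv (D : RD r N) : Fin r ⊕ Fin N → ℂ := fun b => -∑ i, toC D.M (.inl i) b * (D.y i : ℂ)

theorem yv_inr (a : Fin N) : D.yv (.inr a) = 0 := by
  rw [yv, Finset.sum_eq_zero, neg_zero]
  intro i _
  have : toC D.M (.inl i) (.inr a) = 0 := by simp [toC, M]
  rw [this, zero_mul]

theorem Ok.yv_G (h : D.Ok) (k : Fin r) : ∑ i, D.yv (.inl i) * (D.G i k : ℂ) = (D.y k : ℂ) := by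
  have h1 : ∀ i, (toC D.M * toC D.K) (.inl i) (.inl k) = if i = k then 1 else 0 := by
    intro i
    rw [← toC_mul', h.MK, toC_one', Matrix.one_apply]
    simp
  have h2 : ∀ j, ∑ i, toC D.M (.inl j) (.inl i) * (D.G i k : ℂ) = -(if j = k then 1 else 0) := by
    intro j
    rw [← h1, Matrix.mul_apply, Fintype.sum_sum_type]
    have h3 : ∀ b : Fin N, toC D.M (.inl j) (.inr b) * toC D.K (.inr b) (.inl k) = 0 := by
      intro b
      simp [toC, M]
    rw [Finset.sum_eq_zero fun b _ => h3 b, add_zero, ← Finset.sum_neg_distrib]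
    refine Finset.sum_congr rfl fun i _ => ?_
    have h4 : toC D.K (.inl i) (.inl k) = -(D.G i k : ℂ) := by simp [toC, K]
    rw [h4]
    ring
  simp only [yv, neg_mul, Finset.sum_mul, Finset.sum_neg_distrib]
  rw [Finset.sum_comm]
  have h5 : ∀ j, ∑ i, toC D.M (.inl j) (.inl i) * (D.y j : ℂ) * (D.G i k : ℂ) = -(if j = k then (D.y j : ℂ) else 0) := by
    intro j
    have h6 : ∑ i, toC D.M (.inl j) (.inl i) * (D.y j : ℂ) * (D.G i k : ℂ) =
        (D.y j : ℂ) * ∑ i, toC D.M (.inl j) (.inl i) * (D.G i k : ℂ) := by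
      rw [Finset.mul_sum]
      refine Finset.sum_congr rfl fun i _ => ?_
      ring
    rw [h6, h2]
    split_ifs <;> simp
  rw [Finset.sum_congr rfl fun j _ => h5 j]
  simp

theorem Ok.LC_yv (h : D.Ok) : D.LC D.yv = diagonal fun i => (D.lv i : ℂ) := by
  rw [LC_inl _ yv_inr]
  congr 1
  funext b
  rcases b with b | b
  · show (0 : ℂ) = ((0 : ℤ) : ℂ)
    simp
  · show ∑ i, D.yv (.inl i) * (D.ip (Pi.single i 1) (D.v b) : ℂ) = ((D.lev (D.v b) : ℤ) : ℂ)
    have h1 : ∀ i, D.yv (.inl i) * (D.ip (Pi.single i 1) (D.v b) : ℂ) = ∑ k, D.yv (.inl i) * (D.G i k : ℂ) * (D.v b k : ℂ) := by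
      intro i
      rw [ip_single]
      push_cast
      rw [Finset.mul_sum]
      refine Finset.sum_congr rfl fun k _ => ?_
      ring
    rw [Finset.sum_congr rfl fun i _ => h1 i, Finset.sum_comm, lev]
    push_cast
    refine Finset.sum_congr rfl fun k _ => ?_
    rw [← Finset.sum_mul, h.yv_G]

/-- the bracket of a root vector with the grading element -/
theorem L_lv (a : Fin N) : toC (D.L (.inr a)) * (diagonal fun i => (D.lv i : ℂ)) - (diagonal fun i => (D.lv i : ℂ)) * toC (D.L (.inr a)) =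
    -(D.lev (D.v a) : ℂ) • toC (D.L (.inr a)) := by
  ext c b
  rw [Matrix.sub_apply, Matrix.mul_diagonal, Matrix.diagonal_mul, Matrix.smul_apply, smul_eq_mul, toC_L]
  have key : D.st (.inr a) b c * D.lv b - D.lv c * D.st (.inr a) b c = -D.lev (D.v a) * D.st (.inr a) b c := by
    rcases b with b | b
    · show (if c = .inr a then -D.ip (Pi.single b 1) (D.v a) else 0) * 0 -
        D.lv c * (if c = .inr a then -D.ip (Pi.single b 1) (D.v a) else 0) =
        -D.lev (D.v a) * (if c = .inr a then -D.ip (Pi.single b 1) (D.v a) else 0)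
      by_cases h1 : c = .inr a
      · rw [if_pos h1, h1]
        show _ - D.lev (D.v a) * _ = _
        ring
      · rw [if_neg h1]
        ring
    · rcases c with c | c
      · show (if D.v b = -D.v a then -D.v a c else 0) * D.lev (D.v b) - 0 * (if D.v b = -D.v a then -D.v a c else 0) =
          -D.lev (D.v a) * (if D.v b = -D.v a then -D.v a c else 0)
        by_cases h1 : D.v b = -D.v a
        · rw [if_pos h1, h1, lev_neg]
          ring
        · rw [if_neg h1]
          ring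
      · show (if D.v c = D.v a + D.v b then sg (D.bf (D.v a) (D.v b)) else 0) * D.lev (D.v b) -
          D.lev (D.v c) * (if D.v c = D.v a + D.v b then sg (D.bf (D.v a) (D.v b)) else 0) =
          -D.lev (D.v a) * (if D.v c = D.v a + D.v b then sg (D.bf (D.v a) (D.v b)) else 0)
        by_cases h1 : D.v c = D.v a + D.v b
        · rw [if_pos h1, h1, lev_add]
          ring
        · rw [if_neg h1]
          ring
  have key2 := congrArg (Int.cast : ℤ → ℂ) key
  push_cast at key2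
  exact key2

/-- the trace form on the grading element -/
theorem Ok.tr_lv (h : D.Ok) {κ : ℤ} (c5 : ∀ i, ∑ b, D.ip (Pi.single i 1) (D.v b) * D.lev (D.v b) = κ * D.y i)
    (a : Fin r ⊕ Fin N) : (toC (D.L a) * (diagonal fun i => (D.lv i : ℂ))).trace =
      Sum.elim (fun i => (κ : ℂ) * (D.y i : ℂ)) (fun _ => 0) a := by
  rw [Matrix.trace]
  simp only [Matrix.diag_apply, Matrix.mul_diagonal, toC_L]
  rw [Fintype.sum_sum_type]
  have h0 : ∀ i : Fin r, ((D.st a (.inl i) (.inl i) : ℤ) : ℂ) * (D.lv (.inl i) : ℂ) = 0 := by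
    intro i
    show _ * (((0 : ℤ)) : ℂ) = 0
    simp
  rw [Finset.sum_eq_zero fun i _ => h0 i, zero_add]
  rcases a with i | a
  · rw [Sum.elim_inl, ← Int.cast_mul, ← c5 i]
    push_cast
    refine Finset.sum_congr rfl fun b _ => ?_
    congr 1
    show (((if (Sum.inr b : Fin r ⊕ Fin N) = .inr b then D.ip (Pi.single i 1) (D.v b) else 0 : ℤ)) : ℂ) = _
    rw [if_pos rfl]
  · rw [Sum.elim_inr]
    refine Finset.sum_eq_zero fun b _ => ?_
    have h1 : D.st (.inr a) (.inr b) (.inr b) = 0 := by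
      show (if D.v b = D.v a + D.v b then sg (D.bf (D.v a) (D.v b)) else 0) = 0
      rw [if_neg]
      intro h2
      exact h.v_ne a (by simpa using h2)
    rw [h1]
    simp

theorem Ok.FF_lv (h : D.Ok) {κ : ℤ} (c5 : ∀ i, ∑ b, D.ip (Pi.single i 1) (D.v b) * D.lev (D.v b) = κ * D.y i) :
    FF D.M D.L (diagonal fun i => (D.lv i : ℂ)) = (-(κ : ℂ)) • (diagonal fun i => (D.lv i : ℂ)) := by
  rw [← h.LC_yv, LC, Finset.smul_sum]
  show ∑ a, ∑ b, (((D.M a b : ℚ) : ℂ) * (toC (D.L a) * D.LC D.yv).trace) • toC (D.L b) = _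
  rw [Finset.sum_comm]
  refine Finset.sum_congr rfl fun b _ => ?_
  rw [← Finset.sum_smul, smul_smul]
  congr 1
  rw [h.LC_yv, Fintype.sum_sum_type]
  simp only [h.tr_lv c5, Sum.elim_inl, Sum.elim_inr, mul_zero, Finset.sum_const_zero, add_zero]
  rw [yv, neg_mul_neg, Finset.mul_sum]
  refine Finset.sum_congr rfl fun i _ => ?_
  show toC D.M (.inl i) b * _ = _
  ring

/-- the split data of the adjoint representation -/
theorem Ok.split (h : D.Ok) (h1 : ∀ a, D.lev (D.v a) = -1 ∨ D.lev (D.v a) = 0 ∨ D.lev (D.v a) = 1) :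
    Split D.K D.S 1 D.lv (FF D.M D.L) where
  Ksymm := h.Ksymm
  Kdet := h.Kdet
  Ssymm := h.Ssymm
  Ssq := h.Ssq
  SK := h.SK
  ee := one_mul _
  eK := by rw [Matrix.transpose_one, one_mul, mul_one]
  eS := by rw [one_mul, mul_one]
  elv := by
    intro i j hij
    by_cases h2 : i = j
    · rw [h2]
    · exact absurd (Matrix.one_apply_ne h2) hij
  lve := by
    intro i a1 a2 a3
    exfalso
    rcases i with i | i
    · exact a2 rfl
    · rcases h1 i with h2 | h2 | h2
      · exact a1 h2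
      · exact a2 h2
      · exact a3 h2
  Klv := Klv
  Slv := Slv
  pos0 := h.pos0
  pos1 := fun u hu h0 => h.pos1 u hu (Or.inl rfl) h0
  posm := fun u hu h0 => h.pos1 u hu (Or.inr rfl) h0
  Frat := FF_rat D.M D.L
  FS := FF_conj h.Ssq D.S h.saut h.SM h.Ssq

/-- the root vectors are good -/
theorem Ok.good (h : D.Ok) (a : Fin r ⊕ Fin N) : Good D.K 1 (FF D.M D.L) (toC (D.L a)) where
  comm := by rw [toC_one', one_mul, mul_one]
  skew := by
    rw [← toC_tr', ← toC_mul', ← toC_mul', ← toC_add', h.skew, toC_zero']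
  der := fun Y => by
    rw [← LC_single]
    exact h.derC _ Y

/-- BLOCK ADJ: assembly of the adjoint case -/
theorem Ok.adj (h : D.Ok) (h1 : ∀ a, D.lev (D.v a) = -1 ∨ D.lev (D.v a) = 0 ∨ D.lev (D.v a) = 1)
    (c1 : ∀ j, D.y j = 0 → ∃ a b, D.lev (D.v a) = 1 ∧ D.v b = D.v a + Pi.single j 1)
    (c2 : ∀ a b, D.lev (D.v a) = 1 → D.lev (D.v b) = 1 →
      ∃ c, D.lev (D.v c) = 1 ∧ D.ip (D.v a) (D.v c) ≠ 0 ∧ D.ip (D.v c) (D.v b) ≠ 0)
    (c3 : ∀ c, D.lev (D.v c) = 0 → ∃ a, D.lev (D.v a) = 1 ∧ D.ip (D.v a) (D.v c) = -1)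
    (c4 : ∃ a, D.lev (D.v a) = 1) {κ : ℤ} (hκ : κ ≠ 0)
    (c5 : ∀ i, ∑ b, D.ip (Pi.single i 1) (D.v b) * D.lev (D.v b) = κ * D.y i) {s t : ℕ}
    (hs : (Finset.univ.filter fun a => D.lev (D.v a) = 1).card = s)
    (ht : r + (Finset.univ.filter fun a => D.lev (D.v a) = 0).card = t) (hrk : r + N < 2 * s * t) : Sharp s t := by
  have hH0 : (diagonal fun i => (D.lv i : ℂ)) = (Dl D.lv 1 - Dl D.lv (-1)) * toC 1 := by
    rw [toC_one', mul_one, Dl, Dl, Matrix.diagonal_sub]
    congr 1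
    funext i
    have h2 : D.lv i = -1 ∨ D.lv i = 0 ∨ D.lv i = 1 := by
      rcases i with i | i
      · exact Or.inr (Or.inl rfl)
      · exact h1 i
    rcases h2 with h2 | h2 | h2 <;> rw [h2] <;> norm_num
  refine sharp_of_split (h.split h1) hH0 ?_ (c := -(κ : ℂ)) ?_ (h.FF_lv c5) ?_ ?_ ?_ ?_
  · intro Y
    rw [← h.LC_yv]
    exact h.derC _ Y
  · rw [neg_ne_zero]
    exact_mod_cast hκ
  · intro B _ _ hB
    rw [toC_one']
    refine h.scalar_of_jac h.jac h1 c1 c2 c3 c4 B fun a ha => ?_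
    have h2 := hB _ (h.good (.inr a))
    rw [L_lv, Matrix.mul_smul, Matrix.smul_mul] at h2
    have h3 : (-(D.lev (D.v a) : ℂ)) ≠ 0 := by
      rw [neg_ne_zero]
      exact_mod_cast ha
    exact smul_right_injective _ h3 h2
  · rw [toC_one', mul_one, rank_Dl, D.card_lv, if_neg (by norm_num), zero_add, hs]
  · rw [toC_one', mul_one, rank_Dl, D.card_lv, if_pos rfl, ht]
  · refine (FF_rank D.M D.L).trans_lt ?_
    rw [Fintype.card_sum, Fintype.card_fin, Fintype.card_fin]
    exact hrk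

end RD

end C9
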