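import Pool.Agent.Helper81.C9.Lie
import Pool.Agent.Helper2.C9.FF

/-!
Project LT (MP_b8862a_ag), block C9: the split data of a simply laced root system.
-/

set_option linter.unusedSectionVars false

open Matrix Module MH

namespace C9

theorem toC_add' {n : Type*} (A B : Matrix n n ℚ) : toC (A + B) = toC A + toC B := by
  ext i j
  simp [toC]

theorem toC_sub' {n : Type*} (A B : Matrix n n ℚ) : toC (A - B) = toC A - toC B := by
  ext i j
  simp [toC]

theorem toC_mul' {n : Type*} [Fintype n] (A B : Matrix n n ℚ) : toC (A * B) = toC A * toC B := by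
  rw [toC, toC, toC, Matrix.map_mul]

theorem toC_one' {n : Type*} [DecidableEq n] : toC (1 : Matrix n n ℚ) = 1 := by
  ext i j
  simp only [toC, Matrix.map_apply, Matrix.one_apply]
  split_ifs <;> simp

theorem toC_zero' {n : Type*} : toC (0 : Matrix n n ℚ) = 0 := by
  ext i j
  simp [toC]

theorem toC_tr' {n : Type*} (A : Matrix n n ℚ) : toC Aᵀ = (toC A)ᵀ := rfl

theorem toC_smul' {n : Type*} (c : ℚ) (A : Matrix n n ℚ) : toC (c • A) = (c : ℂ) • toC A := by
  ext i j
  simp [toC]

theorem toC_sum' {n ι : Type*} (s : Finset ι) (A : ι → Matrix n n ℚ) : toC (∑ i ∈ s, A i) = ∑ i ∈ s, toC (A i) := by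
  ext i j
  simp only [toC, Matrix.map_apply, Matrix.sum_apply, map_sum]

namespace RD

variable {r N : ℕ} {D : RD r N}

section basic

variable (h : D.Ok)
include h

theorem Ok.Ksymm : D.Kᵀ = D.K := by
  ext i j
  rcases i with i | i <;> rcases j with j | j
  · simp [K, h.gb, add_comm]
  · simp [K]
  · simp [K]
  · simp only [K, Matrix.transpose_apply, fromBlocks_apply₂₂, Matrix.of_apply]
    by_cases h1 : D.v i = -D.v j
    · rw [if_pos h1, if_pos (by rw [h1, neg_neg])]
    · rw [if_neg h1, if_neg (fun h2 => h1 (by rw [h2, neg_neg]))]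

theorem Ok.Ssymm : D.Sᵀ = D.S := by
  ext i j
  rcases i with i | i <;> rcases j with j | j
  · simp only [S, Matrix.transpose_apply, fromBlocks_apply₁₁, Matrix.neg_apply, Matrix.one_apply]
    simp only [eq_comm]
  · simp [S]
  · simp [S]
  · simp only [S, Matrix.transpose_apply, fromBlocks_apply₂₂, Matrix.of_apply]
    by_cases h1 : D.v i = -D.v j
    · rw [if_pos h1, if_pos (by rw [h1, neg_neg]), h1, D.lev_neg, sg_neg]
    · rw [if_neg h1, if_neg (fun h2 => h1 (by rw [h2, neg_neg]))]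

theorem Ok.MK : D.M * D.K = 1 := mul_eq_one_comm.1 h.KM

theorem Ok.Kdet : IsUnit D.K.det := by
  rw [← Matrix.isUnit_iff_isUnit_det]
  exact ⟨⟨D.K, D.M, h.KM, h.MK⟩, rfl⟩

/-- the positive form -/
theorem Ok.KS : D.K * D.S = fromBlocks (D.G.map (Int.cast : ℤ → ℚ)) 0 0
    (diagonal fun a => (sg (D.lev (D.v a)) : ℚ)) := by
  rw [K, S, fromBlocks_multiply]
  simp only [Matrix.mul_zero, Matrix.zero_mul, add_zero, zero_add]
  congr 1
  · rw [Matrix.neg_mul, Matrix.mul_neg, neg_neg, Matrix.mul_one]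
  · ext a b
    rw [Matrix.mul_apply, Matrix.diagonal_apply]
    obtain ⟨a', ha'⟩ := h.neg a
    rw [Finset.sum_eq_single a']
    · simp only [Matrix.of_apply]
      rw [if_pos ha', one_mul, ha', neg_neg, D.lev_neg, sg_neg]
      by_cases hab : a = b
      · subst hab
        rw [if_pos rfl, if_pos rfl]
      · rw [if_neg (fun h1 => hab (h.inj h1.symm)), if_neg hab]
    · intro b' _ hb
      simp only [Matrix.of_apply]
      rw [if_neg (fun h1 => hb (h.inj (h1.trans ha'.symm))), zero_mul]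
    · intro hc
      exact absurd (Finset.mem_univ _) hc

theorem Ok.SK : D.S * D.K = D.K * D.S := by
  have h1 : (D.K * D.S)ᵀ = D.K * D.S := by
    rw [h.KS, fromBlocks_transpose]
    congr 1
    · ext i j
      simp [h.gb, add_comm]
    · rw [Matrix.diagonal_transpose]
  rw [Matrix.transpose_mul, h.Ksymm, h.Ssymm] at h1
  exact h1

theorem Ok.SM : D.S * D.M = D.M * D.Sᵀ := by
  rw [h.Ssymm]
  calc D.S * D.M = D.M * D.K * D.S * D.M := by rw [h.MK, one_mul]
    _ = D.M * (D.K * D.S) * D.M := by simp only [mul_assoc]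
    _ = D.M * (D.S * D.K) * D.M := by rw [h.SK]
    _ = D.M * D.S * (D.K * D.M) := by simp only [mul_assoc]
    _ = D.M * D.S := by rw [h.KM, mul_one]

omit h in
theorem Klv (i j : Fin r ⊕ Fin N) (hij : D.K i j ≠ 0) : D.lv i + D.lv j = 0 := by
  rcases i with i | i <;> rcases j with j | j
  · rfl
  · exact absurd rfl hij
  · exact absurd rfl hij
  · by_cases h1 : D.v j = -D.v i
    · show D.lev (D.v i) + D.lev (D.v j) = 0
      rw [h1, D.lev_neg, add_neg_cancel]
    · exact absurd (if_neg h1) hij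

omit h in
theorem Slv (i j : Fin r ⊕ Fin N) (hij : D.S i j ≠ 0) : D.lv i + D.lv j = 0 := by
  rcases i with i | i <;> rcases j with j | j
  · rfl
  · exact absurd rfl hij
  · exact absurd rfl hij
  · by_cases h1 : D.v j = -D.v i
    · show D.lev (D.v i) + D.lev (D.v j) = 0
      rw [h1, D.lev_neg, add_neg_cancel]
    · exact absurd (if_neg h1) hij

/-- the value of the hermitian form -/
theorem Ok.herm (u : Fin r ⊕ Fin N → ℂ) : (u ⬝ᵥ (toC (D.K * D.S) *ᵥ star u)).re =
    (∑ i, ∑ j, (u (.inl i)).re * (D.G i j : ℝ) * (u (.inl j)).re) +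
      (∑ i, ∑ j, (u (.inl i)).im * (D.G i j : ℝ) * (u (.inl j)).im) +
      ∑ a, (sg (D.lev (D.v a)) : ℝ) * Complex.normSq (u (.inr a)) := by
  rw [h.KS]
  have e1 : ∀ i : Fin r, (toC (fromBlocks (D.G.map (Int.cast : ℤ → ℚ)) 0 0
      (diagonal fun a => (sg (D.lev (D.v a)) : ℚ))) *ᵥ star u) (.inl i) = ∑ j, (D.G i j : ℂ) * star (u (.inl j)) := by
    intro i
    rw [Matrix.mulVec, dotProduct, Fintype.sum_sum_type]
    simp [toC]
  have e2 : ∀ a : Fin N, (toC (fromBlocks (D.G.map (Int.cast : ℤ → ℚ)) 0 0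
      (diagonal fun a => (sg (D.lev (D.v a)) : ℚ))) *ᵥ star u) (.inr a) = (sg (D.lev (D.v a)) : ℂ) * star (u (.inr a)) := by
    intro a
    rw [Matrix.mulVec, dotProduct, Fintype.sum_sum_type, Finset.sum_eq_zero (s := Finset.univ), zero_add,
      Finset.sum_eq_single a]
    · simp [toC, Matrix.diagonal_apply]
    · intro b _ hb
      simp [toC, Matrix.diagonal_apply, Ne.symm hb]
    · intro hc
      exact absurd (Finset.mem_univ _) hc
    · intro i _
      simp [toC]
  rw [dotProduct, Fintype.sum_sum_type]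
  simp only [e1, e2]
  rw [Complex.add_re, Complex.re_sum, Complex.re_sum]
  congr 1
  · rw [← Finset.sum_add_distrib]
    refine Finset.sum_congr rfl fun i _ => ?_
    rw [Finset.mul_sum, Complex.re_sum, ← Finset.sum_add_distrib]
    refine Finset.sum_congr rfl fun j _ => ?_
    simp [Complex.mul_re, Complex.mul_im]
    ring
  · refine Finset.sum_congr rfl fun a _ => ?_
    have e3 : u (.inr a) * ((sg (D.lev (D.v a)) : ℂ) * star (u (.inr a))) =
        ((sg (D.lev (D.v a)) : ℝ) : ℂ) * (Complex.normSq (u (.inr a)) : ℂ) := by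
      rw [← Complex.mul_conj]
      simp only [starRingEnd_apply]
      push_cast
      ring
    rw [e3, ← Complex.ofReal_mul, Complex.ofReal_re]

theorem Ok.pd_nonneg (x : Fin r → ℝ) : 0 ≤ ∑ i, ∑ j, x i * (D.G i j : ℝ) * x j := by
  by_cases hx : x = 0
  · subst hx
    simp
  · exact (h.pd x hx).le

theorem Ok.pos0 (u : Fin r ⊕ Fin N → ℂ) (hu : u ≠ 0) (h0 : ∀ i, D.lv i ≠ 0 → u i = 0) :
    0 < (u ⬝ᵥ (toC (D.K * D.S) *ᵥ star u)).re := by
  rw [h.herm]
  have p1 := h.pd_nonneg fun i => (u (.inl i)).re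
  have p2 := h.pd_nonneg fun i => (u (.inl i)).im
  have p3 : ∀ a, (sg (D.lev (D.v a)) : ℝ) * Complex.normSq (u (.inr a)) = Complex.normSq (u (.inr a)) := by
    intro a
    by_cases h1 : D.lev (D.v a) = 0
    · rw [h1, sg_zero]
      simp
    · have h2 : u (.inr a) = 0 := h0 (.inr a) h1
      rw [h2]
      simp
  rw [Finset.sum_congr rfl fun a _ => p3 a]
  have p4 : 0 ≤ ∑ a, Complex.normSq (u (.inr a)) := Finset.sum_nonneg fun a _ => Complex.normSq_nonneg _
  by_contra hcon
  push Not at hcon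
  have q1 : ∀ i, (u (.inl i)).re = 0 := by
    have : (fun i => (u (.inl i)).re) = 0 := by
      by_contra hne
      have := h.pd _ hne
      linarith
    exact fun i => congrFun this i
  have q2 : ∀ i, (u (.inl i)).im = 0 := by
    have : (fun i => (u (.inl i)).im) = 0 := by
      by_contra hne
      have := h.pd _ hne
      linarith
    exact fun i => congrFun this i
  have q3 : ∀ a, u (.inr a) = 0 := by
    intro a
    have h3 : ∑ a, Complex.normSq (u (.inr a)) = 0 := by linarith
    rw [Finset.sum_eq_zero_iff_of_nonneg fun a _ => Complex.normSq_nonneg _] at h3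
    exact Complex.normSq_eq_zero.1 (h3 a (Finset.mem_univ _))
  apply hu
  funext i
  rcases i with i | i
  · exact Complex.ext (q1 i) (q2 i)
  · exact q3 i

theorem Ok.pos1 (u : Fin r ⊕ Fin N → ℂ) (hu : u ≠ 0) {k : ℤ} (hk : k = 1 ∨ k = -1) (h0 : ∀ i, D.lv i ≠ k → u i = 0) :
    (u ⬝ᵥ (toC (D.K * D.S) *ᵥ star u)).re < 0 := by
  rw [h.herm]
  have q1 : ∀ i, u (.inl i) = 0 := by
    intro i
    apply h0
    show (0 : ℤ) ≠ k
    omega
  have p3 : ∀ a, (sg (D.lev (D.v a)) : ℝ) * Complex.normSq (u (.inr a)) = -Complex.normSq (u (.inr a)) := by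
    intro a
    by_cases h1 : D.lev (D.v a) = k
    · rw [h1]
      have : sg k = -1 := by rcases hk with rfl | rfl <;> rfl
      rw [this]
      simp
    · have h2 : u (.inr a) = 0 := h0 (.inr a) h1
      rw [h2]
      simp
  rw [Finset.sum_congr rfl fun a _ => p3 a, Finset.sum_neg_distrib]
  simp only [q1, Complex.zero_re, Complex.zero_im, zero_mul, Finset.sum_const_zero, zero_add, Left.neg_neg_iff]
  have p4 : 0 ≤ ∑ a, Complex.normSq (u (.inr a)) := Finset.sum_nonneg fun a _ => Complex.normSq_nonneg _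
  rcases p4.lt_or_eq with h4 | h4
  · exact h4
  · exfalso
    apply hu
    funext i
    rcases i with i | i
    · exact q1 i
    · have h3 := h4.symm
      rw [Finset.sum_eq_zero_iff_of_nonneg fun a _ => Complex.normSq_nonneg _] at h3
      exact Complex.normSq_eq_zero.1 (h3 i (Finset.mem_univ _))

end basic

/-- the complex adjoint representation -/
noncomputable def LC (D : RD r N) (w : Fin r ⊕ Fin N → ℂ) : Matrix (Fin r ⊕ Fin N) (Fin r ⊕ Fin N) ℂ :=
  ∑ a, w a • toC (D.L a)

theorem Ok.jacC (h : D.Ok) (w : Fin r ⊕ Fin N → ℂ) (b : Fin r ⊕ Fin N) :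
    D.LC w * toC (D.L b) - toC (D.L b) * D.LC w = ∑ c, D.LC w c b • toC (D.L c) := by
  have h1 : ∀ a, toC (D.L a) * toC (D.L b) - toC (D.L b) * toC (D.L a) = ∑ c, toC (D.L a) c b • toC (D.L c) := by
    intro a
    rw [← toC_mul', ← toC_mul', ← toC_sub', h.jac, toC_sum']
    refine Finset.sum_congr rfl fun c _ => ?_
    rw [toC_smul']
    rfl
  rw [LC, Finset.sum_mul, Finset.mul_sum, ← Finset.sum_sub_distrib]
  have h2 : ∀ a, w a • toC (D.L a) * toC (D.L b) - toC (D.L b) * (w a • toC (D.L a)) =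
      ∑ c, (w a * toC (D.L a) c b) • toC (D.L c) := by
    intro a
    rw [smul_mul_assoc, mul_smul_comm, ← smul_sub, h1, Finset.smul_sum]
    refine Finset.sum_congr rfl fun c _ => ?_
    rw [smul_smul]
  rw [Finset.sum_congr rfl fun a _ => h2 a, Finset.sum_comm]
  refine Finset.sum_congr rfl fun c _ => ?_
  rw [← Finset.sum_smul]
  congr 1
  rw [Matrix.sum_apply]
  rfl

theorem Ok.skewC (h : D.Ok) (w : Fin r ⊕ Fin N → ℂ) : (D.LC w)ᵀ * toC D.K + toC D.K * D.LC w = 0 := by
  rw [LC, Matrix.transpose_sum, Finset.sum_mul, Finset.mul_sum, ← Finset.sum_add_distrib]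
  refine Finset.sum_eq_zero fun a _ => ?_
  rw [Matrix.transpose_smul, smul_mul_assoc, mul_smul_comm, ← smul_add, ← toC_tr', ← toC_mul', ← toC_mul', ← toC_add',
    h.skew, toC_zero', smul_zero]

/-- skew matrices and the inverse of the form -/
theorem Ok.skewM (h : D.Ok) {X : Matrix (Fin r ⊕ Fin N) (Fin r ⊕ Fin N) ℂ} (hX : Xᵀ * toC D.K + toC D.K * X = 0) :
    X * toC D.M + toC D.M * Xᵀ = 0 := by
  have k1 : toC D.K * toC D.M = 1 := by rw [← toC_mul', h.KM, toC_one']
  have k2 : toC D.M * toC D.K = 1 := by rw [← toC_mul', h.MK, toC_one']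
  calc X * toC D.M + toC D.M * Xᵀ = (toC D.M * toC D.K) * X * toC D.M + toC D.M * Xᵀ * (toC D.K * toC D.M) := by
        rw [k1, k2, one_mul, mul_one]
    _ = toC D.M * (Xᵀ * toC D.K + toC D.K * X) * toC D.M := by noncomm_ring
    _ = 0 := by rw [hX, mul_zero, zero_mul]

/-- the Cartan elements are diagonal -/
theorem LC_inl (w : Fin r ⊕ Fin N → ℂ) (hw : ∀ a, w (.inr a) = 0) :
    D.LC w = diagonal (Sum.elim (fun _ => 0) fun b => ∑ i, w (.inl i) * (D.ip (Pi.single i 1) (D.v b) : ℂ)) := by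
  ext c b
  have h9 : ∑ a : Fin N, (w (.inr a) • toC (D.L (.inr a))) c b = 0 := by
    refine Finset.sum_eq_zero fun a _ => ?_
    rw [Matrix.smul_apply, hw, zero_smul]
  rw [LC, Matrix.sum_apply, Fintype.sum_sum_type, h9, add_zero]
  rcases b with j | b
  · rw [Matrix.diagonal_apply]
    have h0 : ∀ i : Fin r, (w (.inl i) • toC (D.L (.inl i))) c (.inl j) = 0 := by
      intro i
      show w (.inl i) * (((0 : ℤ) : ℚ) : ℂ) = 0
      simp
    rw [Finset.sum_eq_zero fun i _ => h0 i]
    split_ifs with h1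
    · rw [h1]
      rfl
    · rfl
  · rw [Matrix.diagonal_apply]
    by_cases h1 : c = .inr b
    · rw [if_pos h1, h1]
      refine Finset.sum_congr rfl fun i _ => ?_
      show w (.inl i) * (((if (Sum.inr b : Fin r ⊕ Fin N) = .inr b then D.ip (Pi.single i 1) (D.v b) else 0 : ℤ) : ℚ) : ℂ) = _
      rw [if_pos rfl]
      push_cast
      rfl
    · rw [if_neg h1]
      refine Finset.sum_eq_zero fun i _ => ?_
      show w (.inl i) * (((if c = .inr b then D.ip (Pi.single i 1) (D.v b) else 0 : ℤ) : ℚ) : ℂ) = _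
      rw [if_neg h1]
      simp

end RD

end C9
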