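import Pool.Agent.Helper27.PGN.Big
import Pool.Agent.Helper94.SH.Restrict
import Pool.Agent.Helper94.SH.Fact
import Pool.Agent.Helper24.PGN.GQ

/-!
Project LT (MP_b8862a_ag), block C9: constructions with simply laced Lie algebras. Definitions.
-/

set_option linter.unusedSectionVars false

open Matrix Module MH

namespace C9

/-- The conclusion: some polarised Hodge structure with the Hodge numbers `s`, `t`, `s` and the endomorphisms `ℚ` has a
Mumford-Tate group smaller than the group of similitudes. -/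
def Sharp (s t : ℕ) : Prop :=
  ∃ (n : Type) (_ : Fintype n) (_ : DecidableEq n) (Q : Matrix n n ℚ) (P : ℤ → Matrix n n ℂ), IsHW 2 Q {0, 1, 2} P ∧
    (∀ A : Matrix n n ℚ, (∀ p, toC A * P p = P p * toC A) → ∃ c : ℚ, A = c • (1 : Matrix n n ℚ)) ∧
    (P 2).rank = s ∧ (P 1).rank = t ∧ ∃ g : GL n ℂ, IsGQ 2 Q g ∧ g ∉ MT {0, 1, 2} P

section gen

variable {n : Type*} [Fintype n] [DecidableEq n] {m : Type*} [Fintype m] [DecidableEq m]

/-- infinitesimal isometries of the image of `e` with which `F` commutes -/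
structure Good (Q e : Matrix n n ℚ) (F : Matrix n n ℂ →ₗ[ℂ] Matrix n n ℂ) (X : Matrix n n ℂ) : Prop where
  comm : X * toC e = toC e * X
  skew : Xᵀ * toC Q + toC Q * X = 0
  der : ∀ Y, F (X * Y - Y * X) = X * F Y - F Y * X

/-- the projection to the level `k` -/
noncomputable def Dl (lv : n → ℤ) (k : ℤ) : Matrix n n ℂ := diagonal fun i => if lv i = k then 1 else 0

/-- Split data: `K` the form, `S` the twist, `e` the projection to the module, `lv` the levels, `F` a linear map. -/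
structure Split (K S e : Matrix n n ℚ) (lv : n → ℤ) (F : Matrix n n ℂ →ₗ[ℂ] Matrix n n ℂ) : Prop where
  Ksymm : Kᵀ = K
  Kdet : IsUnit K.det
  Ssymm : Sᵀ = S
  Ssq : S * S = 1
  SK : S * K = K * S
  ee : e * e = e
  eK : eᵀ * K = K * e
  eS : e * S = S * e
  elv : ∀ i j, e i j ≠ 0 → lv i = lv j
  lve : ∀ i, lv i ≠ -1 → lv i ≠ 0 → lv i ≠ 1 → ∀ j, e i j = 0
  Klv : ∀ i j, K i j ≠ 0 → lv i + lv j = 0
  Slv : ∀ i j, S i j ≠ 0 → lv i + lv j = 0
  pos0 : ∀ u : n → ℂ, u ≠ 0 → (∀ i, lv i ≠ 0 → u i = 0) → 0 < (u ⬝ᵥ (toC (K * S) *ᵥ star u)).re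
  pos1 : ∀ u : n → ℂ, u ≠ 0 → (∀ i, lv i ≠ 1 → u i = 0) → (u ⬝ᵥ (toC (K * S) *ᵥ star u)).re < 0
  posm : ∀ u : n → ℂ, u ≠ 0 → (∀ i, lv i ≠ -1 → u i = 0) → (u ⬝ᵥ (toC (K * S) *ᵥ star u)).re < 0
  Frat : ∀ A : Matrix n n ℚ, ∃ B : Matrix n n ℚ, F (toC A) = toC B
  FS : ∀ Y, F (toC S * Y * toC S) = toC S * F Y * toC S

/-- the contraction with the family `L` -/
noncomputable def FF (M : Matrix m m ℚ) (L : m → Matrix n n ℚ) : Matrix n n ℂ →ₗ[ℂ] Matrix n n ℂ where
  toFun Y := ∑ a, ∑ b, (((M a b : ℚ) : ℂ) * (toC (L a) * Y).trace) • toC (L b)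
  map_add' X Y := by
    simp only [← Finset.sum_add_distrib]
    refine Finset.sum_congr rfl fun a _ => Finset.sum_congr rfl fun b _ => ?_
    rw [Matrix.mul_add, Matrix.trace_add, mul_add, add_smul]
  map_smul' c X := by
    rw [RingHom.id_apply, Finset.smul_sum]
    refine Finset.sum_congr rfl fun a _ => ?_
    rw [Finset.smul_sum]
    refine Finset.sum_congr rfl fun b _ => ?_
    rw [Matrix.mul_smul, Matrix.trace_smul, smul_smul, smul_eq_mul]
    congr 1
    ring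

end gen

/-- Simply laced root data: Gram matrix `G` of the simple roots, `G = B + Bᵀ`, `G * Gi = d`, the roots `v a` in the
coordinates of the simple roots, the levels `y` of the simple roots. -/
structure RD (r N : ℕ) where
  G : Matrix (Fin r) (Fin r) ℤ
  B : Matrix (Fin r) (Fin r) ℤ
  Gi : Matrix (Fin r) (Fin r) ℤ
  d : ℤ
  v : Fin N → Fin r → ℤ
  y : Fin r → ℤ

namespace RD

variable {r N : ℕ} (D : RD r N)

/-- the inner product -/
def ip (x z : Fin r → ℤ) : ℤ := ∑ i, ∑ j, x i * D.G i j * z j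

/-- the bilinear form of the signs -/
def bf (x z : Fin r → ℤ) : ℤ := ∑ i, ∑ j, x i * D.B i j * z j

/-- the level -/
def lev (x : Fin r → ℤ) : ℤ := ∑ i, D.y i * x i

/-- the sign -/
def sg (m : ℤ) : ℤ := if m % 2 = 0 then 1 else -1

/-- the properties of the roots -/
structure Ok : Prop where
  gb : ∀ i j, D.G i j = D.B i j + D.B j i
  two : ∀ a, D.ip (D.v a) (D.v a) = 2
  inj : Function.Injective D.v
  neg : ∀ a, ∃ b, D.v b = -D.v a
  add : ∀ a b, D.ip (D.v a) (D.v b) = -1 → ∃ c, D.v c = D.v a + D.v b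
  bd : ∀ a b, -1 ≤ D.ip (D.v a) (D.v b) ∨ D.v b = -D.v a
  simp : ∀ i, ∃ a, D.v a = Pi.single i 1
  gi : D.G * D.Gi = D.d • (1 : Matrix (Fin r) (Fin r) ℤ)
  d0 : D.d ≠ 0
  pd : ∀ x : Fin r → ℝ, x ≠ 0 → 0 < ∑ i, ∑ j, x i * (D.G i j : ℝ) * x j

/-- the structure constants: the coefficient of the basis vector `c` in `[a, b]` -/
def st : Fin r ⊕ Fin N → Fin r ⊕ Fin N → Fin r ⊕ Fin N → ℤ
  | .inl _, .inl _, _ => 0
  | .inl i, .inr b, c => if c = .inr b then D.ip (Pi.single i 1) (D.v b) else 0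
  | .inr a, .inl j, c => if c = .inr a then -D.ip (Pi.single j 1) (D.v a) else 0
  | .inr a, .inr b, .inl k => if D.v b = -D.v a then -D.v a k else 0
  | .inr a, .inr b, .inr c => if D.v c = D.v a + D.v b then sg (D.bf (D.v a) (D.v b)) else 0

/-- the adjoint representation -/
def L (a : Fin r ⊕ Fin N) : Matrix (Fin r ⊕ Fin N) (Fin r ⊕ Fin N) ℚ := Matrix.of fun c b => (D.st a b c : ℚ)

/-- the invariant form -/
def K : Matrix (Fin r ⊕ Fin N) (Fin r ⊕ Fin N) ℚ := fromBlocks (-(D.G.map (Int.cast : ℤ → ℚ))) 0 0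
  (Matrix.of fun a b => if D.v b = -D.v a then 1 else 0)

/-- the inverse of the invariant form -/
def M : Matrix (Fin r ⊕ Fin N) (Fin r ⊕ Fin N) ℚ := fromBlocks (-((D.d : ℚ)⁻¹ • D.Gi.map (Int.cast : ℤ → ℚ))) 0 0
  (Matrix.of fun a b => if D.v b = -D.v a then 1 else 0)

/-- the twist -/
def S : Matrix (Fin r ⊕ Fin N) (Fin r ⊕ Fin N) ℚ := fromBlocks (-1) 0 0
  (Matrix.of fun a b => if D.v b = -D.v a then (sg (D.lev (D.v a)) : ℚ) else 0)

/-- the levels of the basis vectors -/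
def lv : Fin r ⊕ Fin N → ℤ := Sum.elim (fun _ => 0) fun a => D.lev (D.v a)

end RD

end C9
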