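import Pool.Agent.Helper81.C9.Defs

/-!
Project LT (MP_b8862a_ag), block C9: folding (for `F_4`). Definitions.
-/

set_option linter.unusedSectionVars false

open Matrix Module MH

namespace C9

namespace RD

variable {r N : ℕ}

/-- A diagram automorphism: `σ` on the simple roots, `τ` on the roots. -/
structure Fold (D : RD r N) (σ : Fin r → Fin r) (τ : Fin N → Fin N) : Prop where
  ss : ∀ i, σ (σ i) = i
  tt : ∀ a, τ (τ a) = a
  vt : ∀ a i, D.v (τ a) i = D.v a (σ i)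
  Bs : ∀ i j, D.B (σ i) (σ j) = D.B i j
  ys : ∀ i, D.y (σ i) = D.y i
  orth : ∀ a, τ a ≠ a → D.ip (D.v a) (D.v (τ a)) = 0

/-- the automorphism as a matrix -/
def Th (σ : Fin r → Fin r) (τ : Fin N → Fin N) : Matrix (Fin r ⊕ Fin N) (Fin r ⊕ Fin N) ℚ :=
  fromBlocks (Matrix.of fun i j => if i = σ j then 1 else 0) 0 0 (Matrix.of fun a b => if a = τ b then 1 else 0)

/-- the projection to the module -/
def ef (σ : Fin r → Fin r) (τ : Fin N → Fin N) : Matrix (Fin r ⊕ Fin N) (Fin r ⊕ Fin N) ℚ := (1 / 2 : ℚ) • (1 - Th σ τ)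

/-- the family of the fixed subalgebra on the module -/
def Lf (D : RD r N) (σ : Fin r → Fin r) (τ : Fin N → Fin N) (a : Fin r ⊕ Fin N) :
    Matrix (Fin r ⊕ Fin N) (Fin r ⊕ Fin N) ℚ := (1 / 2 : ℚ) • (D.L a + Th σ τ * D.L a * Th σ τ) * ef σ τ

end RD

end C9
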