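import Pool.Agent.Helper81.C9.Lat

/-!
Project LT (MP_b8862a_ag), block C9: the adjoint representation, the invariant form and the twist as matrices.
-/

set_option linter.unusedSectionVars false

open Matrix Module MH

namespace C9

namespace RD

variable {r N : ℕ} {D : RD r N}

/-- three cases for two roots -/
theorem EE_cases (h : D.Ok) {x z : Fin r → ℤ} (hx : D.R x) (hz : D.R z) :
    (D.ip x z = -1 ∧ D.br (D.E x) (D.E z) = sg (D.bf x z) • D.E (x + z)) ∨
      (z = -x ∧ D.br (D.E x) (D.E z) = -D.Hh x) ∨ (0 ≤ D.ip x z ∧ D.br (D.E x) (D.E z) = 0) := by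
  rcases h.R_bd hx hz with h1 | h1
  · rcases h1.lt_or_eq with h2 | h2
    · exact Or.inr (Or.inr ⟨by omega, EE_zero h hx hz (by omega)⟩)
    · exact Or.inl ⟨h2.symm, EE_neg1 h hx hz h2.symm⟩
  · exact Or.inr (Or.inl ⟨h1, EE_opp h hx h1⟩)

theorem anti_EE (h : D.Ok) {x z : Fin r → ℤ} (hx : D.R x) (hz : D.R z) :
    D.br (D.E z) (D.E x) = -D.br (D.E x) (D.E z) := by
  rcases EE_cases h hx hz with ⟨h1, h2⟩ | ⟨h1, h2⟩ | ⟨h1, h2⟩
  · rw [h2, EE_neg1 h hz hx (by rw [h.ip_comm, h1]), add_comm z x, ← neg_smul]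
    congr 1
    have e1 := h.sg_swap x z
    rw [h1, sg_neg_one] at e1
    calc sg (D.bf z x) = (sg (D.bf x z) * sg (D.bf x z)) * sg (D.bf z x) := by rw [sg_mul_self, one_mul]
      _ = sg (D.bf x z) * (sg (D.bf x z) * sg (D.bf z x)) := by ring
      _ = _ := by rw [e1]; ring
  · rw [h2, EE_opp h hz (by rw [h1, neg_neg]), h1, Hh_neg]
  · rw [h2, EE_zero h hz hx (by rw [h.ip_comm]; exact h1), neg_zero]

theorem H_EE (h : D.Ok) (u : Fin r → ℤ) {x z : Fin r → ℤ} (hx : D.R x) (hz : D.R z) :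
    D.br (D.Hh u) (D.br (D.E x) (D.E z)) = D.ip u (x + z) • D.br (D.E x) (D.E z) := by
  rcases EE_cases h hx hz with ⟨h1, h2⟩ | ⟨h1, h2⟩ | ⟨h1, h2⟩
  · rw [h2, map_smul, br_HE h, smul_comm]
  · rw [h2, map_neg, br_HH, h1, add_neg_cancel, h.ip_comm, D.ip_zero_left, zero_smul, neg_zero]
  · rw [h2, map_zero, smul_zero]

theorem EE_H (h : D.Ok) (u : Fin r → ℤ) {x z : Fin r → ℤ} (hx : D.R x) (hz : D.R z) :
    D.br (D.br (D.E x) (D.E z)) (D.Hh u) = -(D.ip u (x + z) • D.br (D.E x) (D.E z)) := by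
  rcases EE_cases h hx hz with ⟨h1, h2⟩ | ⟨h1, h2⟩ | ⟨h1, h2⟩
  · rw [h2, LinearMap.map_smul₂, br_EH h, smul_neg, smul_comm]
  · rw [h2, LinearMap.map_neg₂, br_HH, h1, add_neg_cancel, h.ip_comm, D.ip_zero_left, zero_smul]
  · rw [h2, LinearMap.map_zero₂, smul_zero, neg_zero]

/-- Jacobi's identity -/
theorem jac_br (h : D.Ok) (a b c : Fin r ⊕ Fin N) :
    D.br (Pi.single a 1) (D.br (Pi.single b 1) (Pi.single c 1)) =
      D.br (D.br (Pi.single a 1) (Pi.single b 1)) (Pi.single c 1) +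
        D.br (Pi.single b 1) (D.br (Pi.single a 1) (Pi.single c 1)) := by
  rcases a with i | a <;> rcases b with j | b <;> rcases c with k | c <;>
    (try simp only [← Hh_single (D := D)]) <;> (try simp only [← E_single h])
  · simp only [br_HH, map_zero, LinearMap.zero_apply, add_zero]
  · simp only [br_HH, br_HE h, map_smul, LinearMap.map_zero₂, zero_add]
    rw [smul_comm]
  · simp only [br_HH, br_EH h, br_HE h, map_smul, map_neg, LinearMap.smul_apply, map_zero, add_zero, smul_neg]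
    rw [smul_comm]
  · rw [H_EE h _ ⟨b, rfl⟩ ⟨c, rfl⟩, br_HE h, br_HE h, LinearMap.map_smul₂, map_smul, D.ip_add_right, add_smul]
  · simp only [br_HH, br_EH h, br_HE h, map_smul, map_neg, LinearMap.smul_apply, LinearMap.neg_apply, map_zero, smul_neg,
      neg_neg]
    rw [smul_comm, add_neg_cancel]
  · rw [br_HE h, br_EH h, H_EE h _ ⟨a, rfl⟩ ⟨c, rfl⟩, map_smul, LinearMap.map_neg₂, LinearMap.map_smul₂, D.ip_add_right,
      add_smul]
    abel
  · rw [br_EH h, br_EH h, EE_H h _ ⟨a, rfl⟩ ⟨b, rfl⟩, map_neg, map_smul, map_neg, map_smul,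
      anti_EE h ⟨a, rfl⟩ ⟨b, rfl⟩, D.ip_add_right, add_smul, smul_neg]
    abel
  · exact jac_rrr h ⟨a, rfl⟩ ⟨b, rfl⟩ ⟨c, rfl⟩

/-- the rational vector of an integral vector -/
def cV {n : Type*} (u : n → ℤ) : n → ℚ := fun c => (u c : ℚ)

theorem cV_add {n : Type*} (u w : n → ℤ) : cV (u + w) = cV u + cV w := by
  funext c
  simp [cV]

theorem cV_neg {n : Type*} (u : n → ℤ) : cV (-u) = -cV u := by
  funext c
  simp [cV]

theorem cV_sub {n : Type*} (u w : n → ℤ) : cV (u - w) = cV u - cV w := by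
  funext c
  simp [cV]

theorem cV_smul {n : Type*} (k : ℤ) (u : n → ℤ) : cV (k • u) = (k : ℚ) • cV u := by
  funext c
  simp [cV]

theorem ext_cV {n : Type*} [Fintype n] [DecidableEq n] {A B : Matrix n n ℚ}
    (h : ∀ b, A *ᵥ cV (Pi.single b 1) = B *ᵥ cV (Pi.single b 1)) : A = B := by
  ext i j
  have h1 := congrFun (h j) i
  have h2 : cV (Pi.single j 1 : n → ℤ) = Pi.single j 1 := by
    funext c
    simp only [cV, Pi.single_apply]
    split_ifs <;> simp
  rw [h2, Matrix.mulVec_single_one, Matrix.mulVec_single_one] at h1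
  exact h1

/-- the adjoint representation -/
def LL (D : RD r N) (w : Fin r ⊕ Fin N → ℤ) : Matrix (Fin r ⊕ Fin N) (Fin r ⊕ Fin N) ℚ := ∑ c, (w c : ℚ) • D.L c

theorem LL_mulVec (w u : Fin r ⊕ Fin N → ℤ) : D.LL w *ᵥ cV u = cV (D.br w u) := by
  funext c
  rw [LL, Matrix.sum_mulVec, Finset.sum_apply]
  show _ = ((∑ a, ∑ b, w a * u b * D.st a b c : ℤ) : ℚ)
  push_cast
  refine Finset.sum_congr rfl fun a _ => ?_
  rw [Matrix.smul_mulVec, Pi.smul_apply, smul_eq_mul, Matrix.mulVec, dotProduct, Finset.mul_sum]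
  refine Finset.sum_congr rfl fun b _ => ?_
  show (w a : ℚ) * ((D.st a b c : ℚ) * (u b : ℚ)) = _
  ring

theorem L_eq (a : Fin r ⊕ Fin N) : D.L a = D.LL (Pi.single a 1) := by
  rw [LL, Finset.sum_eq_single a]
  · simp
  · intro b _ hb
    simp [Pi.single_apply, hb]
  · intro hc
    exact absurd (Finset.mem_univ _) hc

theorem L_mulVec (a : Fin r ⊕ Fin N) (u : Fin r ⊕ Fin N → ℤ) : D.L a *ᵥ cV u = cV (D.br (Pi.single a 1) u) := by
  rw [L_eq, LL_mulVec]

/-- BLOCK LAT -/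
theorem Ok.jac (h : D.Ok) (a b : Fin r ⊕ Fin N) : D.L a * D.L b - D.L b * D.L a = ∑ c, D.L a c b • D.L c := by
  have h1 : ∑ c, D.L a c b • D.L c = D.LL (D.br (Pi.single a 1) (Pi.single b 1)) := by
    rw [br_single]
    rfl
  rw [h1]
  refine ext_cV fun c => ?_
  rw [Matrix.sub_mulVec, ← Matrix.mulVec_mulVec, ← Matrix.mulVec_mulVec, L_mulVec, L_mulVec, L_mulVec, L_mulVec, LL_mulVec,
    jac_br h, cV_add, add_sub_cancel_right]

/-! The form. -/

/-- the form, over the integers -/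
def Kz (D : RD r N) : Matrix (Fin r ⊕ Fin N) (Fin r ⊕ Fin N) ℤ := fromBlocks (-D.G) 0 0
  (Matrix.of fun a b => if D.v b = -D.v a then 1 else 0)

theorem K_eq : D.K = D.Kz.map (Int.cast : ℤ → ℚ) := by
  ext i j
  rcases i with i | i <;> rcases j with j | j
  · simp [K, Kz]
  · simp [K, Kz]
  · simp [K, Kz]
  · simp only [K, Kz, fromBlocks_apply₂₂, Matrix.of_apply, Matrix.map_apply]
    split_ifs <;> simp

/-- the form -/
def kf (D : RD r N) (u w : Fin r ⊕ Fin N → ℤ) : ℤ := ∑ i, ∑ j, u i * D.Kz i j * w j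

theorem kf_add_left (u u' w : Fin r ⊕ Fin N → ℤ) : D.kf (u + u') w = D.kf u w + D.kf u' w := by
  simp only [kf, Pi.add_apply, add_mul, Finset.sum_add_distrib]

theorem kf_add_right (u w w' : Fin r ⊕ Fin N → ℤ) : D.kf u (w + w') = D.kf u w + D.kf u w' := by
  simp only [kf, Pi.add_apply, mul_add, Finset.sum_add_distrib]

theorem kf_neg_left (u w : Fin r ⊕ Fin N → ℤ) : D.kf (-u) w = -D.kf u w := by
  simp only [kf, Pi.neg_apply, neg_mul, Finset.sum_neg_distrib]

theorem kf_neg_right (u w : Fin r ⊕ Fin N → ℤ) : D.kf u (-w) = -D.kf u w := by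
  simp only [kf, Pi.neg_apply, mul_neg, Finset.sum_neg_distrib]

theorem kf_smul_left (k : ℤ) (u w : Fin r ⊕ Fin N → ℤ) : D.kf (k • u) w = k * D.kf u w := by
  simp only [kf, Pi.smul_apply, smul_eq_mul, Finset.mul_sum, mul_assoc]

theorem kf_smul_right (k : ℤ) (u w : Fin r ⊕ Fin N → ℤ) : D.kf u (k • w) = k * D.kf u w := by
  simp only [kf, Pi.smul_apply, smul_eq_mul, Finset.mul_sum]
  refine Finset.sum_congr rfl fun a _ => Finset.sum_congr rfl fun b _ => ?_
  ring

theorem kf_zero_left (w : Fin r ⊕ Fin N → ℤ) : D.kf 0 w = 0 := by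
  simp [kf]

theorem kf_zero_right (w : Fin r ⊕ Fin N → ℤ) : D.kf w 0 = 0 := by
  simp [kf]

theorem kf_HH (x z : Fin r → ℤ) : D.kf (D.Hh x) (D.Hh z) = -D.ip x z := by
  simp only [kf, Hh, Fintype.sum_sum_type, Sum.elim_inl, Sum.elim_inr, Kz, fromBlocks_apply₁₁, Pi.zero_apply, mul_zero,
    zero_mul, Finset.sum_const_zero, add_zero, ip, Matrix.neg_apply]
  simp only [mul_neg, neg_mul, Finset.sum_neg_distrib]

theorem kf_HE (x z : Fin r → ℤ) : D.kf (D.Hh x) (D.E z) = 0 := by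
  simp only [kf, Hh, E, Fintype.sum_sum_type, Sum.elim_inl, Sum.elim_inr, Kz, fromBlocks_apply₁₂, Pi.zero_apply, mul_zero,
    zero_mul, Finset.sum_const_zero, add_zero, Matrix.zero_apply]

theorem kf_EH (x z : Fin r → ℤ) : D.kf (D.E z) (D.Hh x) = 0 := by
  simp only [kf, Hh, E, Fintype.sum_sum_type, Sum.elim_inl, Sum.elim_inr, Kz, fromBlocks_apply₂₁, Pi.zero_apply, mul_zero,
    zero_mul, Finset.sum_const_zero, add_zero, Matrix.zero_apply]

theorem kf_EE (h : D.Ok) {x z : Fin r → ℤ} (hx : D.R x) (hz : D.R z) :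
    D.kf (D.E x) (D.E z) = if z = -x then 1 else 0 := by
  obtain ⟨a, rfl⟩ := hx
  obtain ⟨b, rfl⟩ := hz
  rw [E_single h, E_single h, kf, Finset.sum_eq_single (Sum.inr a), Finset.sum_eq_single (Sum.inr b)]
  · simp [Kz]
  · intro b' _ hb
    simp [Pi.single_apply, hb]
  · intro hb
    exact absurd (Finset.mem_univ _) hb
  · intro a' _ ha
    simp [Pi.single_apply, ha]
  · intro ha
    exact absurd (Finset.mem_univ _) ha

/-- the form is invariant -/
theorem skew_br (h : D.Ok) (a b c : Fin r ⊕ Fin N) :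
    D.kf (D.br (Pi.single a 1) (Pi.single b 1)) (Pi.single c 1) +
      D.kf (Pi.single b 1) (D.br (Pi.single a 1) (Pi.single c 1)) = 0 := by
  rcases a with i | a <;> rcases b with j | b <;> rcases c with k | c <;>
    (try simp only [← Hh_single (D := D)]) <;> (try simp only [← E_single h])
  · simp only [br_HH, kf_zero_left, kf_zero_right, add_zero]
  · simp only [br_HH, br_HE h, kf_zero_left, kf_smul_right, kf_HE, mul_zero, add_zero]
  · simp only [br_HH, br_HE h, kf_zero_right, kf_smul_left, kf_EH, mul_zero, add_zero]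
  · rw [br_HE h, br_HE h, kf_smul_left, kf_smul_right, kf_EE h ⟨b, rfl⟩ ⟨c, rfl⟩]
    split_ifs with h1
    · rw [h1, D.ip_neg_right]
      ring
    · ring
  · simp only [br_EH h, kf_neg_left, kf_neg_right, kf_smul_left, kf_smul_right, kf_EH, kf_HE, mul_zero, neg_zero, add_zero]
  · rw [br_EH h, kf_neg_left, kf_smul_left, kf_EE h ⟨a, rfl⟩ ⟨c, rfl⟩]
    rcases EE_cases h (⟨a, rfl⟩ : D.R (D.v a)) (⟨c, rfl⟩ : D.R (D.v c)) with ⟨h1, h2⟩ | ⟨h1, h2⟩ | ⟨h1, h2⟩
    · rw [h2, kf_smul_right, kf_HE, if_neg]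
      · ring
      · intro hc
        rw [hc, D.ip_neg_right, h.two] at h1
        omega
    · rw [h2, if_pos h1, kf_neg_right, kf_HH]
      ring
    · rw [h2, kf_zero_right, if_neg]
      · ring
      · intro hc
        rw [hc, D.ip_neg_right, h.two] at h1
        omega
  · rw [br_EH h, kf_neg_right, kf_smul_right, kf_EE h ⟨b, rfl⟩ ⟨a, rfl⟩]
    rcases EE_cases h (⟨a, rfl⟩ : D.R (D.v a)) (⟨b, rfl⟩ : D.R (D.v b)) with ⟨h1, h2⟩ | ⟨h1, h2⟩ | ⟨h1, h2⟩
    · rw [h2, kf_smul_left, kf_EH, if_neg]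
      · ring
      · intro hc
        rw [hc, D.ip_neg_left, h.two] at h1
        omega
    · rw [h2, if_pos (by rw [h1, neg_neg]), kf_neg_left, kf_HH, h.ip_comm]
      ring
    · rw [h2, kf_zero_left, if_neg]
      · ring
      · intro hc
        rw [hc, D.ip_neg_left, h.two] at h1
        omega
  · have ha : D.R (D.v a) := ⟨a, rfl⟩
    have hb : D.R (D.v b) := ⟨b, rfl⟩
    have hc : D.R (D.v c) := ⟨c, rfl⟩
    have key : ∀ {x z w : Fin r → ℤ}, D.R x → D.R z → D.R w → D.kf (D.br (D.E x) (D.E z)) (D.E w) =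
        if x + z + w = 0 then sg (D.bf x z) else 0 := by
      intro x z w hx hz hw
      rcases EE_cases h hx hz with ⟨h1, h2⟩ | ⟨h1, h2⟩ | ⟨h1, h2⟩
      · rw [h2, kf_smul_left, kf_EE h (h.R_add hx hz h1) hw]
        by_cases h3 : w = -(x + z)
        · rw [if_pos h3, if_pos (by rw [h3, add_neg_cancel]), mul_one]
        · rw [if_neg h3, if_neg (fun h4 => h3 (eq_neg_of_add_eq_zero_right h4)), mul_zero]
      · rw [h2, kf_neg_left, kf_HE, if_neg, neg_zero]
        rw [h1, add_neg_cancel, zero_add]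
        exact h.R_ne hw
      · rw [h2, kf_zero_left, if_neg]
        intro h4
        have h5 : w = -(x + z) := eq_neg_of_add_eq_zero_right h4
        have h6 : D.R (x + z) := by
          have := h.R_neg hw
          rwa [h5, neg_neg] at this
        have := h.R_add_ip hx hz h6
        omega
    have ksymm : ∀ u w : Fin r ⊕ Fin N → ℤ, D.kf u w = D.kf w u := by
      intro u w
      unfold kf
      rw [Finset.sum_comm]
      refine Finset.sum_congr rfl fun i _ => Finset.sum_congr rfl fun j _ => ?_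
      have hK : D.Kz j i = D.Kz i j := by
        rcases i with i | i <;> rcases j with j | j
        · show -D.G j i = -D.G i j
          rw [h.gb, h.gb, add_comm]
        · rfl
        · rfl
        · show (if D.v i = -D.v j then (1 : ℤ) else 0) = if D.v j = -D.v i then 1 else 0
          by_cases h1 : D.v i = -D.v j
          · rw [if_pos h1, if_pos (by rw [h1, neg_neg])]
          · rw [if_neg h1, if_neg (fun h2 => h1 (by rw [h2, neg_neg]))]
      rw [hK]
      ring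
    rw [key ha hb hc, ksymm, key ha hc hb, add_right_comm (D.v a) (D.v c) (D.v b)]
    by_cases h1 : D.v a + D.v b + D.v c = 0
    · rw [if_pos h1, if_pos h1]
      have h2 : D.v c = -D.v a - D.v b := by
        have := eq_neg_of_add_eq_zero_right h1
        rw [this]
        abel
      rw [h2, sub_eq_add_neg, D.bf_add_right, D.bf_neg_right, D.bf_neg_right, sg_add, sg_neg, sg_neg, h.R_bf ha, sg_one]
      ring
    · rw [if_neg h1, if_neg h1, add_zero]

theorem Ok.skew (h : D.Ok) (a : Fin r ⊕ Fin N) : (D.L a)ᵀ * D.K + D.K * D.L a = 0 := by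
  ext b c
  have h1 := skew_br h a b c
  rw [br_single, br_single, kf, kf] at h1
  rw [Matrix.add_apply, Matrix.mul_apply, Matrix.mul_apply, Matrix.zero_apply]
  have e1 : ∑ i, ∑ j, D.st a b i * D.Kz i j * (Pi.single c 1 : _ → ℤ) j = ∑ i, D.st a b i * D.Kz i c := by
    refine Finset.sum_congr rfl fun i _ => ?_
    rw [Finset.sum_eq_single c]
    · rw [Pi.single_eq_same, mul_one]
    · intro j _ hj
      rw [Pi.single_eq_of_ne hj, mul_zero]
    · intro hc
      exact absurd (Finset.mem_univ _) hc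
  have e2 : ∑ i, ∑ j, (Pi.single b 1 : _ → ℤ) i * D.Kz i j * D.st a c j = ∑ j, D.Kz b j * D.st a c j := by
    rw [Finset.sum_eq_single b]
    · simp only [Pi.single_eq_same, one_mul]
    · intro j _ hj
      simp only [Pi.single_eq_of_ne hj, zero_mul, Finset.sum_const_zero]
    · intro hc
      exact absurd (Finset.mem_univ _) hc
  rw [e1, e2] at h1
  have h2 := congrArg (Int.cast : ℤ → ℚ) h1
  push_cast at h2
  rw [K_eq]
  exact h2

theorem Ok.KM (h : D.Ok) : D.K * D.M = 1 := by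
  have hd : (D.d : ℚ) ≠ 0 := by exact_mod_cast h.d0
  rw [K, M, fromBlocks_multiply]
  simp only [Matrix.mul_zero, Matrix.zero_mul, add_zero, zero_add]
  rw [← fromBlocks_one]
  congr 1
  · have h1 : (D.G * D.Gi).map (Int.cast : ℤ → ℚ) = (D.d • (1 : Matrix (Fin r) (Fin r) ℤ)).map (Int.cast : ℤ → ℚ) := by
      rw [h.gi]
    have h2 : (D.G * D.Gi).map (Int.cast : ℤ → ℚ) = D.G.map (Int.cast : ℤ → ℚ) * D.Gi.map (Int.cast : ℤ → ℚ) :=
      Matrix.map_mul (f := Int.castRingHom ℚ)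
    have h3 : (D.d • (1 : Matrix (Fin r) (Fin r) ℤ)).map (Int.cast : ℤ → ℚ) = (D.d : ℚ) • (1 : Matrix (Fin r) (Fin r) ℚ) := by
      ext i j
      rw [Matrix.map_apply, Matrix.smul_apply, Matrix.smul_apply, Matrix.one_apply, Matrix.one_apply, smul_eq_mul,
        smul_eq_mul]
      split_ifs <;> simp
    rw [h2, h3] at h1
    rw [Matrix.neg_mul, Matrix.mul_neg, neg_neg, Matrix.mul_smul, h1, smul_smul, inv_mul_cancel₀ hd, one_smul]
  · ext a b
    rw [Matrix.mul_apply]
    obtain ⟨a', ha'⟩ := h.neg a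
    rw [Finset.sum_eq_single a']
    · simp only [Matrix.of_apply]
      rw [if_pos ha', one_mul, ha', neg_neg, Matrix.one_apply]
      by_cases hab : a = b
      · subst hab
        rw [if_pos rfl, if_pos rfl]
      · rw [if_neg (fun h1 => hab (h.inj h1.symm)), if_neg hab]
    · intro b' _ hb
      simp only [Matrix.of_apply]
      rw [if_neg (fun h1 => hb (h.inj (h1.trans ha'.symm))), zero_mul]
    · intro hc
      exact absurd (Finset.mem_univ _) hc

/-! The twist. -/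

/-- the twist, over the integers -/
def Sz (D : RD r N) : Matrix (Fin r ⊕ Fin N) (Fin r ⊕ Fin N) ℤ := fromBlocks (-1) 0 0
  (Matrix.of fun a b => if D.v b = -D.v a then sg (D.lev (D.v a)) else 0)

theorem S_eq : D.S = D.Sz.map (Int.cast : ℤ → ℚ) := by
  ext i j
  rcases i with i | i <;> rcases j with j | j
  · simp only [S, Sz, fromBlocks_apply₁₁, Matrix.map_apply, Matrix.neg_apply, Matrix.one_apply]
    split_ifs <;> simp
  · simp [S, Sz]
  · simp [S, Sz]
  · simp only [S, Sz, fromBlocks_apply₂₂, Matrix.of_apply, Matrix.map_apply]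
    split_ifs <;> simp

theorem S_mulVec (u : Fin r ⊕ Fin N → ℤ) : D.S *ᵥ cV u = cV (D.Sz *ᵥ u) := by
  rw [S_eq]
  funext c
  rw [cV, Matrix.mulVec, Matrix.mulVec, dotProduct, dotProduct]
  push_cast
  rfl

theorem Sz_H (x : Fin r → ℤ) : D.Sz *ᵥ D.Hh x = -D.Hh x := by
  funext c
  rcases c with c | c
  · rw [Matrix.mulVec, dotProduct, Fintype.sum_sum_type]
    simp [Sz, Hh, Matrix.one_apply]
  · rw [Matrix.mulVec, dotProduct, Fintype.sum_sum_type]
    simp [Sz, Hh]

theorem Sz_E (h : D.Ok) {x : Fin r → ℤ} (hx : D.R x) : D.Sz *ᵥ D.E x = sg (D.lev x) • D.E (-x) := by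
  obtain ⟨a, rfl⟩ := hx
  rw [E_single h, Matrix.mulVec_single_one]
  funext c
  rcases c with c | c
  · show (0 : ℤ) = sg _ * 0
    rw [mul_zero]
  · show (if D.v a = -D.v c then sg (D.lev (D.v c)) else 0) = sg _ * (if D.v c = -D.v a then 1 else 0)
    by_cases h1 : D.v a = -D.v c
    · rw [if_pos h1, if_pos (by rw [h1, neg_neg]), h1, D.lev_neg, sg_neg, mul_one]
    · rw [if_neg h1, if_neg (fun h2 => h1 (by rw [h2, neg_neg])), mul_zero]

theorem Sz_sq (h : D.Ok) : D.Sz * D.Sz = 1 := by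
  have key : ∀ b, (D.Sz * D.Sz) *ᵥ (Pi.single b 1) = (1 : Matrix _ _ ℤ) *ᵥ (Pi.single b 1) := by
    intro b
    rw [← Matrix.mulVec_mulVec, Matrix.one_mulVec]
    rcases b with i | b
    · rw [← Hh_single (D := D), Sz_H, Matrix.mulVec_neg, Sz_H, neg_neg]
    · rw [← E_single h, Sz_E h ⟨b, rfl⟩, Matrix.mulVec_smul, Sz_E h (h.neg b), smul_smul, D.lev_neg, sg_neg, sg_mul_self,
        neg_neg, one_smul]
  ext i j
  have h1 := congrFun (key j) i
  rwa [Matrix.mulVec_single_one, Matrix.mulVec_single_one] at h1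

theorem Ok.Ssq (h : D.Ok) : D.S * D.S = 1 := by
  rw [S_eq]
  have h1 : (D.Sz * D.Sz).map (Int.cast : ℤ → ℚ) = D.Sz.map (Int.cast : ℤ → ℚ) * D.Sz.map (Int.cast : ℤ → ℚ) :=
    Matrix.map_mul (f := Int.castRingHom ℚ)
  rw [← h1, Sz_sq h]
  ext i j
  simp [Matrix.one_apply]

/-- the twist is an automorphism -/
theorem saut_br (h : D.Ok) (a b : Fin r ⊕ Fin N) : D.Sz *ᵥ D.br (Pi.single a 1) (Pi.single b 1) =
    D.br (D.Sz *ᵥ (Pi.single a 1)) (D.Sz *ᵥ (Pi.single b 1)) := by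
  rcases a with i | a <;> rcases b with j | b <;> (try simp only [← Hh_single (D := D)]) <;> (try simp only [← E_single h])
  · rw [br_HH, Sz_H, Sz_H, LinearMap.map_neg₂, map_neg, br_HH, Matrix.mulVec_zero, neg_zero, neg_zero]
  · rw [br_HE h, Sz_H, Matrix.mulVec_smul, Sz_E h ⟨b, rfl⟩, LinearMap.map_neg₂, map_smul, br_HE h, D.ip_neg_right, neg_smul,
      smul_neg, neg_neg, smul_comm]
  · rw [br_EH h, Sz_H, Matrix.mulVec_neg, Matrix.mulVec_smul, Sz_E h ⟨a, rfl⟩, map_neg, LinearMap.map_smul₂, br_EH h,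
      D.ip_neg_right, neg_smul, neg_neg, smul_comm]
  · have ha : D.R (D.v a) := ⟨a, rfl⟩
    have hb : D.R (D.v b) := ⟨b, rfl⟩
    rw [Sz_E h ha, Sz_E h hb, LinearMap.map_smul₂, map_smul, smul_smul]
    rcases EE_cases h ha hb with ⟨h1, h2⟩ | ⟨h1, h2⟩ | ⟨h1, h2⟩
    · rw [h2, Matrix.mulVec_smul, Sz_E h (h.R_add ha hb h1), EE_neg1 h (h.neg a) (h.neg b) (by
        rw [D.ip_neg_left, D.ip_neg_right, neg_neg, h1]), smul_smul, smul_smul, D.bf_neg_left, D.bf_neg_right, neg_neg,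
        D.lev_add, sg_add, neg_add]
      congr 1
      ring
    · rw [h2, Matrix.mulVec_neg, Sz_H, neg_neg, h1, neg_neg, EE_opp h (h.neg a) (by rw [neg_neg]), D.lev_neg, sg_neg,
        sg_mul_self, one_smul, Hh_neg, neg_neg]
    · rw [h2, Matrix.mulVec_zero, EE_zero h (h.neg a) (h.neg b) (by
        rw [D.ip_neg_left, D.ip_neg_right, neg_neg]; exact h1), smul_zero]

theorem saut_br' (h : D.Ok) (u w : Fin r ⊕ Fin N → ℤ) : D.Sz *ᵥ D.br u w = D.br (D.Sz *ᵥ u) (D.Sz *ᵥ w) := by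
  have hu : u = ∑ a, u a • (Pi.single a 1 : Fin r ⊕ Fin N → ℤ) := by
    funext c
    rw [Finset.sum_apply, Finset.sum_eq_single c]
    · simp
    · intro i _ hi
      simp [Pi.single_apply, Ne.symm hi]
    · intro hc
      exact absurd (Finset.mem_univ _) hc
  have hw : w = ∑ a, w a • (Pi.single a 1 : Fin r ⊕ Fin N → ℤ) := by
    funext c
    rw [Finset.sum_apply, Finset.sum_eq_single c]
    · simp
    · intro i _ hi
      simp [Pi.single_apply, Ne.symm hi]
    · intro hc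
      exact absurd (Finset.mem_univ _) hc
  rw [hu, hw]
  simp only [map_sum, LinearMap.sum_apply, map_smul, LinearMap.smul_apply, Matrix.mulVec_sum, Matrix.mulVec_smul,
    saut_br h]

theorem Ok.saut (h : D.Ok) (a : Fin r ⊕ Fin N) : D.S * D.L a * D.S = ∑ c, D.S c a • D.L c := by
  have h1 : ∑ c, D.S c a • D.L c = D.LL (D.Sz *ᵥ Pi.single a 1) := by
    rw [LL, Matrix.mulVec_single_one, S_eq]
    rfl
  rw [h1]
  refine ext_cV fun c => ?_
  rw [← Matrix.mulVec_mulVec, ← Matrix.mulVec_mulVec, S_mulVec, L_mulVec, S_mulVec, LL_mulVec, saut_br' h,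
    Matrix.mulVec_mulVec, Sz_sq h, Matrix.one_mulVec]

end RD

end C9
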