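import Pool.Agent.Helper81.C9.Adj
import Pool.Agent.Helper98.C9.Fcom
import Pool.Agent.Helper14.C9.Th

/-!
Project LT (MP_b8862a_ag), block C9: assembly of the folded case.
-/

set_option linter.unusedSectionVars false
set_option linter.unusedVariables false

open Matrix Module MH

namespace C9

namespace RD

variable {r N : ℕ} {D : RD r N} {σ : Fin r → Fin r} {τ : Fin N → Fin N}

theorem toC_Th (σ : Fin r → Fin r) (τ : Fin N → Fin N) : toC (ef σ τ) = (1 / 2 : ℂ) • (1 - toC (Th σ τ)) := by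
  rw [ef, toC_smul', toC_sub', toC_one']
  norm_num

theorem Fold.Tsq (f : D.Fold σ τ) : toC (Th σ τ) * toC (Th σ τ) = 1 := by
  rw [← toC_mul', f.Th_sq, toC_one']

theorem Fold.ee (f : D.Fold σ τ) : ef σ τ * ef σ τ = ef σ τ := by
  have h1 := f.Th_sq
  rw [ef, Matrix.smul_mul, Matrix.mul_smul, smul_smul]
  have h2 : (1 - Th σ τ) * (1 - Th σ τ) = (2 : ℚ) • (1 - Th σ τ) := by
    calc (1 - Th σ τ) * (1 - Th σ τ) = 1 - Th σ τ - Th σ τ + Th σ τ * Th σ τ := by noncomm_ring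
      _ = (2 : ℚ) • (1 - Th σ τ) := by
        rw [h1, two_smul]
        abel
  rw [h2, smul_smul]
  norm_num

theorem Fold.eeC (f : D.Fold σ τ) : toC (ef σ τ) * toC (ef σ τ) = toC (ef σ τ) := by
  rw [← toC_mul', f.ee]

theorem comm_e {X : Matrix (Fin r ⊕ Fin N) (Fin r ⊕ Fin N) ℂ} (hX : X * toC (Th σ τ) = toC (Th σ τ) * X) :
    X * toC (ef σ τ) = toC (ef σ τ) * X := by
  rw [toC_Th, Matrix.mul_smul, Matrix.smul_mul, mul_sub, sub_mul, hX, mul_one, one_mul]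

theorem comm_eQ {X : Matrix (Fin r ⊕ Fin N) (Fin r ⊕ Fin N) ℚ} (hX : X * Th σ τ = Th σ τ * X) :
    X * ef σ τ = ef σ τ * X := by
  rw [ef, Matrix.mul_smul, Matrix.smul_mul, mul_sub, sub_mul, hX, mul_one, one_mul]

theorem Fold.L_rr (h : D.Ok) (f : D.Fold σ τ) (a : Fin r ⊕ Fin N) : Th σ τ * D.L a * Th σ τ = D.L (rh14 σ τ a) := by
  rw [f.Th_L h, Finset.sum_eq_single (rh14 σ τ a)]
  · rw [Th_apply14, if_pos rfl, one_smul]
  · intro c _ hc
    rw [Th_apply14, if_neg hc, zero_smul]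
  · intro h
    exact absurd (Finset.mem_univ _) h

theorem Fold.lv_rr (f : D.Fold σ τ) (a : Fin r ⊕ Fin N) : D.lv (rh14 σ τ a) = D.lv a := by
  rcases a with a | a
  · rfl
  · show D.lev (D.v (τ a)) = D.lev (D.v a)
    rw [f.vs, f.lev_s]

theorem Fold.lv_T (f : D.Fold σ τ) : (diagonal fun i => (D.lv i : ℂ)) * toC (Th σ τ) = toC (Th σ τ) * diagonal fun i => (D.lv i : ℂ) := by
  ext c d
  rw [Matrix.diagonal_mul, Matrix.mul_diagonal]
  show (D.lv c : ℂ) * ((Th σ τ c d : ℚ) : ℂ) = ((Th σ τ c d : ℚ) : ℂ) * (D.lv d : ℂ)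
  rw [Th_apply14]
  split_ifs with h1
  · rw [h1, f.lv_rr]
    simp
  · simp

/-- the fixed part of the adjoint representation -/
def Pf (D : RD r N) (σ : Fin r → Fin r) (τ : Fin N → Fin N) (a : Fin r ⊕ Fin N) :
    Matrix (Fin r ⊕ Fin N) (Fin r ⊕ Fin N) ℚ := (1 / 2 : ℚ) • (D.L a + Th σ τ * D.L a * Th σ τ)

theorem Lf_eq (a : Fin r ⊕ Fin N) : D.Lf σ τ a = D.Pf σ τ a * ef σ τ := rfl

theorem Fold.Pf_T (f : D.Fold σ τ) (a : Fin r ⊕ Fin N) : D.Pf σ τ a * Th σ τ = Th σ τ * D.Pf σ τ a := by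
  have h1 := f.Th_sq
  rw [Pf, Matrix.smul_mul, Matrix.mul_smul]
  congr 1
  rw [add_mul, mul_add]
  have e1 : Th σ τ * D.L a * Th σ τ * Th σ τ = Th σ τ * D.L a := by rw [mul_assoc, h1, mul_one]
  have e2 : Th σ τ * (Th σ τ * D.L a * Th σ τ) = D.L a * Th σ τ := by
    rw [mul_assoc, ← mul_assoc (Th σ τ), h1, one_mul]
  rw [e1, e2, add_comm]

theorem Fold.Pf_e (f : D.Fold σ τ) (a : Fin r ⊕ Fin N) : D.Pf σ τ a * ef σ τ = ef σ τ * D.Pf σ τ a := comm_eQ (f.Pf_T a)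

/-- the bracket with an element commuting with the automorphism -/
theorem Fold.brP (h : D.Ok) (f : D.Fold σ τ) {X : Matrix (Fin r ⊕ Fin N) (Fin r ⊕ Fin N) ℂ}
    (hb : ∀ b, X * toC (D.L b) - toC (D.L b) * X = ∑ c, X c b • toC (D.L c))
    (hT : X * toC (Th σ τ) = toC (Th σ τ) * X) (b : Fin r ⊕ Fin N) :
    X * toC (D.Pf σ τ b) - toC (D.Pf σ τ b) * X = ∑ c, X c b • toC (D.Pf σ τ c) := by
  have e0 : ∀ c, toC (D.Pf σ τ c) = (1 / 2 : ℂ) • (toC (D.L c) + toC (Th σ τ) * toC (D.L c) * toC (Th σ τ)) := by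
    intro c
    rw [Pf, toC_smul', toC_add', toC_mul', toC_mul']
    norm_num
  simp only [e0]
  have e1 : X * (toC (Th σ τ) * toC (D.L b) * toC (Th σ τ)) - toC (Th σ τ) * toC (D.L b) * toC (Th σ τ) * X =
      toC (Th σ τ) * (X * toC (D.L b) - toC (D.L b) * X) * toC (Th σ τ) := by
    calc X * (toC (Th σ τ) * toC (D.L b) * toC (Th σ τ)) - toC (Th σ τ) * toC (D.L b) * toC (Th σ τ) * X =
          (X * toC (Th σ τ)) * toC (D.L b) * toC (Th σ τ) - toC (Th σ τ) * toC (D.L b) * (toC (Th σ τ) * X) := by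
          noncomm_ring
      _ = (toC (Th σ τ) * X) * toC (D.L b) * toC (Th σ τ) - toC (Th σ τ) * toC (D.L b) * (X * toC (Th σ τ)) := by rw [hT]
      _ = _ := by noncomm_ring
  rw [Matrix.mul_smul, Matrix.smul_mul, ← smul_sub, mul_add, add_mul, add_sub_add_comm, e1, hb, Finset.mul_sum,
    Finset.sum_mul, ← Finset.sum_add_distrib, Finset.smul_sum]
  refine Finset.sum_congr rfl fun c _ => ?_
  rw [Matrix.mul_smul, Matrix.smul_mul, ← smul_add, smul_comm]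

theorem Fold.brL (h : D.Ok) (f : D.Fold σ τ) {X : Matrix (Fin r ⊕ Fin N) (Fin r ⊕ Fin N) ℂ}
    (hb : ∀ b, X * toC (D.L b) - toC (D.L b) * X = ∑ c, X c b • toC (D.L c))
    (hT : X * toC (Th σ τ) = toC (Th σ τ) * X) (b : Fin r ⊕ Fin N) :
    X * toC (D.Lf σ τ b) - toC (D.Lf σ τ b) * X = ∑ c, X c b • toC (D.Lf σ τ c) := by
  have e1 := f.brP h hb hT b
  have e2 := comm_e hT
  have e3 : X * toC (D.Lf σ τ b) - toC (D.Lf σ τ b) * X =
      (X * toC (D.Pf σ τ b) - toC (D.Pf σ τ b) * X) * toC (ef σ τ) := by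
    rw [Lf_eq, toC_mul', sub_mul, mul_assoc, mul_assoc, mul_assoc, e2]
  rw [e3, e1, Finset.sum_mul]
  refine Finset.sum_congr rfl fun c _ => ?_
  rw [Lf_eq, toC_mul', Matrix.smul_mul]

theorem Fold.brLe (h : D.Ok) (f : D.Fold σ τ) {X : Matrix (Fin r ⊕ Fin N) (Fin r ⊕ Fin N) ℂ}
    (hb : ∀ b, X * toC (D.L b) - toC (D.L b) * X = ∑ c, X c b • toC (D.L c))
    (hT : X * toC (Th σ τ) = toC (Th σ τ) * X) (b : Fin r ⊕ Fin N) :
    X * toC (ef σ τ) * toC (D.Lf σ τ b) - toC (D.Lf σ τ b) * (X * toC (ef σ τ)) = ∑ c, X c b • toC (D.Lf σ τ c) := by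
  rw [← f.brL h hb hT b, comm_e hT]
  have e1 : toC (ef σ τ) * toC (D.Lf σ τ b) = toC (D.Lf σ τ b) := by
    rw [Lf_eq, f.Pf_e, toC_mul', ← mul_assoc, f.eeC]
  have e2 : toC (D.Lf σ τ b) * toC (ef σ τ) = toC (D.Lf σ τ b) := by
    rw [Lf_eq, toC_mul', mul_assoc, f.eeC]
  rw [← comm_e hT, mul_assoc, e1, comm_e hT, ← mul_assoc, e2]

theorem Fold.split (h : D.Ok) (f : D.Fold σ τ)
    (c0 : ∀ a, τ a ≠ a → D.lev (D.v a) = -1 ∨ D.lev (D.v a) = 0 ∨ D.lev (D.v a) = 1) :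
    Split D.K D.S (ef σ τ) D.lv (FF D.M (D.Lf σ τ)) where
  Ksymm := h.Ksymm
  Kdet := h.Kdet
  Ssymm := h.Ssymm
  Ssq := h.Ssq
  SK := h.SK
  ee := f.ee
  eK := by
    have h1 : (ef σ τ)ᵀ = ef σ τ := by
      rw [ef, Matrix.transpose_smul, Matrix.transpose_sub, Matrix.transpose_one, f.Th_tr]
    rw [h1, comm_eQ (f.Th_K h).symm]
  eS := (comm_eQ (f.Th_S h).symm).symm
  elv := by
    intro i j hij
    by_contra hne
    apply hij
    rw [ef, Matrix.smul_apply, Matrix.sub_apply, Th_apply14, Matrix.one_apply_ne (fun h1 => hne (by rw [h1])), if_neg]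
    · simp
    · intro h1
      apply hne
      rw [h1, f.lv_rr]
  lve := by
    intro i a1 a2 a3 j
    rcases i with i | i
    · exact absurd rfl a2
    · have h1 : τ i = i := by
        by_contra h2
        rcases c0 i h2 with h3 | h3 | h3
        · exact a1 h3
        · exact a2 h3
        · exact a3 h3
      rw [ef, Matrix.smul_apply, Matrix.sub_apply, Th_apply14, Matrix.one_apply]
      have h2 : (Sum.inr i = rh14 σ τ j) ↔ (Sum.inr i : Fin r ⊕ Fin N) = j := by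
        constructor
        · intro h3
          rw [← f.rr j, ← h3]
          show _ = Sum.inr (τ i)
          rw [h1]
        · intro h3
          rw [← h3]
          show _ = Sum.inr (τ i)
          rw [h1]
      simp only [h2, sub_self, smul_zero]
  Klv := Klv
  Slv := Slv
  pos0 := h.pos0
  pos1 := fun u hu h0 => h.pos1 u hu (Or.inl rfl) h0
  posm := fun u hu h0 => h.pos1 u hu (Or.inr rfl) h0
  Frat := FF_rat D.M (D.Lf σ τ)
  FS := by
    refine FF_conj h.Ssq D.S (fun a => ?_) h.SM h.Ssq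
    have hT := f.Th_S h
    have e1 : D.S * D.Lf σ τ a * D.S = (1 / 2 : ℚ) • (D.S * D.L a * D.S + Th σ τ * (D.S * D.L a * D.S) * Th σ τ) * ef σ τ := by
      rw [Lf_eq, Pf, Matrix.smul_mul, Matrix.mul_smul, Matrix.smul_mul, Matrix.smul_mul]
      congr 1
      have e2 : ef σ τ * D.S = D.S * ef σ τ := (comm_eQ hT.symm).symm
      calc D.S * ((D.L a + Th σ τ * D.L a * Th σ τ) * ef σ τ) * D.S =
            D.S * (D.L a + Th σ τ * D.L a * Th σ τ) * (ef σ τ * D.S) := by noncomm_ring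
        _ = D.S * (D.L a + Th σ τ * D.L a * Th σ τ) * (D.S * ef σ τ) := by rw [e2]
        _ = (D.S * D.L a * D.S + (D.S * Th σ τ) * D.L a * (Th σ τ * D.S)) * ef σ τ := by noncomm_ring
        _ = (D.S * D.L a * D.S + (Th σ τ * D.S) * D.L a * (D.S * Th σ τ)) * ef σ τ := by rw [hT]
        _ = _ := by noncomm_ring
    rw [e1, h.saut, Finset.mul_sum, Finset.sum_mul, ← Finset.sum_add_distrib, Finset.smul_sum, Finset.sum_mul]
    refine Finset.sum_congr rfl fun c _ => ?_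
    rw [Lf_eq, Pf, Matrix.mul_smul, Matrix.smul_mul (D.S c a), ← smul_add, smul_comm, Matrix.smul_mul]

/-- fixed root vectors are good -/
theorem Fold.good (h : D.Ok) (f : D.Fold σ τ) (a : Fin N) :
    Good D.K (ef σ τ) (FF D.M (D.Lf σ τ)) (toC (D.L (.inr a) + D.L (.inr (τ a)))) := by
  have hT : toC (D.L (.inr a) + D.L (.inr (τ a))) * toC (Th σ τ) = toC (Th σ τ) * toC (D.L (.inr a) + D.L (.inr (τ a))) := by
    have h1 : D.L (.inr a) + D.L (.inr (τ a)) = (2 : ℚ) • D.Pf σ τ (.inr a) := by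
      rw [Pf, f.L_rr h, smul_smul]
      norm_num
      rfl
    rw [h1, ← toC_mul', ← toC_mul', Matrix.smul_mul, Matrix.mul_smul, f.Pf_T]
  obtain ⟨w, hw⟩ : ∃ w, toC (D.L (.inr a) + D.L (.inr (τ a))) = D.LC w := by
    refine ⟨Pi.single (.inr a) 1 + Pi.single (.inr (τ a)) 1, ?_⟩
    rw [toC_add', ← LC_single, ← LC_single, LC, LC, LC, ← Finset.sum_add_distrib]
    refine Finset.sum_congr rfl fun c _ => ?_
    rw [Pi.add_apply, add_smul]
  refine ⟨comm_e hT, ?_, fun Y => ?_⟩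
  · rw [hw]
    exact h.skewC w
  · rw [hw] at hT ⊢
    exact FF_br (D.LC w) (f.brL h (h.jacC w) hT) (h.skewM (h.skewC w)) Y

/-- the grading element -/
theorem Fold.gr (h : D.Ok) (f : D.Fold σ τ) (Y : Matrix (Fin r ⊕ Fin N) (Fin r ⊕ Fin N) ℂ) :
    FF D.M (D.Lf σ τ) ((diagonal fun i => (D.lv i : ℂ)) * toC (ef σ τ) * Y - Y * ((diagonal fun i => (D.lv i : ℂ)) * toC (ef σ τ))) =
      (diagonal fun i => (D.lv i : ℂ)) * toC (ef σ τ) * FF D.M (D.Lf σ τ) Y -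
        FF D.M (D.Lf σ τ) Y * ((diagonal fun i => (D.lv i : ℂ)) * toC (ef σ τ)) := by
  have hT := f.lv_T
  rw [← h.LC_yv] at hT ⊢
  exact FF_br (D.LC D.yv) (f.brLe h (h.jacC _) hT) (h.skewM (h.skewC _)) Y

/-- the trace form on the grading element -/
theorem Fold.tr_lv (h : D.Ok) (f : D.Fold σ τ) {κ : ℤ}
    (c6 : ∀ i, ∑ b with τ b ≠ b, D.ip (Pi.single i 1) (D.v b) * D.lev (D.v b) = κ * D.y i)
    (a : Fin r ⊕ Fin N) : (toC (D.Lf σ τ a) * ((diagonal fun i => (D.lv i : ℂ)) * toC (ef σ τ))).trace =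
      Sum.elim (fun i => (κ / 2 : ℂ) * (D.y i : ℂ)) (fun _ => 0) a := by
  obtain ⟨Λ, hΛ⟩ : ∃ Λ : Matrix (Fin r ⊕ Fin N) (Fin r ⊕ Fin N) ℂ, Λ = diagonal fun i => (D.lv i : ℂ) := ⟨_, rfl⟩
  have hT : Λ * toC (Th σ τ) = toC (Th σ τ) * Λ := by rw [hΛ]; exact f.lv_T
  have hTT := f.Tsq
  have he := comm_e hT
  have e1 : (toC (D.Lf σ τ a) * (Λ * toC (ef σ τ))).trace = (toC (D.L a) * (Λ * toC (ef σ τ))).trace := by
    have e2 : toC (D.Lf σ τ a) * (Λ * toC (ef σ τ)) = toC (D.Pf σ τ a) * (Λ * toC (ef σ τ)) := by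
      rw [Lf_eq, toC_mul', he, mul_assoc, ← mul_assoc (toC (ef σ τ)), f.eeC]
    have e3 : toC (D.Pf σ τ a) = (1 / 2 : ℂ) • (toC (D.L a) + toC (Th σ τ) * toC (D.L a) * toC (Th σ τ)) := by
      rw [Pf, toC_smul', toC_add', toC_mul', toC_mul']
      norm_num
    have e4 : toC (ef σ τ) * toC (Th σ τ) = toC (Th σ τ) * toC (ef σ τ) := (comm_e rfl).symm
    have e5 : toC (Th σ τ) * (Λ * toC (ef σ τ)) * toC (Th σ τ) = Λ * toC (ef σ τ) := by
      calc toC (Th σ τ) * (Λ * toC (ef σ τ)) * toC (Th σ τ) = (toC (Th σ τ) * Λ) * (toC (ef σ τ) * toC (Th σ τ)) := by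
            noncomm_ring
        _ = Λ * (toC (Th σ τ) * toC (Th σ τ)) * toC (ef σ τ) := by
            rw [← hT, e4]
            noncomm_ring
        _ = Λ * toC (ef σ τ) := by rw [hTT, mul_one]
    have e6 : (toC (Th σ τ) * toC (D.L a) * toC (Th σ τ) * (Λ * toC (ef σ τ))).trace =
        (toC (D.L a) * (Λ * toC (ef σ τ))).trace := by
      rw [mul_assoc, mul_assoc, Matrix.trace_mul_comm, mul_assoc, e5]
    rw [e2, e3, Matrix.smul_mul, Matrix.trace_smul, add_mul, Matrix.trace_add, e6, smul_eq_mul]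
    ring
  rw [← hΛ, e1]
  have e2 : ∀ c, (toC (D.L a) * (Λ * toC (ef σ τ))) c c =
      (1 / 2 : ℂ) * ((D.st a c c : ℂ) * (D.lv c : ℂ)) - (1 / 2 : ℂ) * ((D.st a (rh14 σ τ c) c : ℂ) * (D.lv c : ℂ)) := by
    intro c
    have e3 : toC (D.L a) * (Λ * toC (ef σ τ)) =
        (1 / 2 : ℂ) • (toC (D.L a) * Λ - toC (D.L a) * toC (Th σ τ) * Λ) := by
      rw [he, toC_Th, Matrix.smul_mul, Matrix.mul_smul, sub_mul, mul_sub, one_mul, ← mul_assoc]
    rw [e3, Matrix.smul_apply, Matrix.sub_apply, hΛ, Matrix.mul_diagonal, Matrix.mul_diagonal, ← toC_mul']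
    have e4 : toC (D.L a * Th σ τ) c c = (D.st a (rh14 σ τ c) c : ℂ) := by
      show (((D.L a * Th σ τ) c c : ℚ) : ℂ) = _
      rw [f.mul_Th14]
      show (((D.st a (rh14 σ τ c) c : ℤ) : ℚ) : ℂ) = _
      push_cast
      rfl
    rw [e4, toC_L, smul_eq_mul]
    ring
  rw [Matrix.trace]
  simp only [Matrix.diag_apply, e2]
  rw [Fintype.sum_sum_type]
  have h0 : ∀ i : Fin r, (1 / 2 : ℂ) * ((D.st a (.inl i) (.inl i) : ℂ) * (D.lv (.inl i) : ℂ)) -
      (1 / 2 : ℂ) * ((D.st a (rh14 σ τ (.inl i)) (.inl i) : ℂ) * (D.lv (.inl i) : ℂ)) = 0 := by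
    intro i
    show (1 / 2 : ℂ) * ((D.st a (.inl i) (.inl i) : ℂ) * (((0 : ℤ)) : ℂ)) -
      (1 / 2 : ℂ) * ((D.st a (rh14 σ τ (.inl i)) (.inl i) : ℂ) * (((0 : ℤ)) : ℂ)) = 0
    simp
  rw [Finset.sum_eq_zero fun i _ => h0 i, zero_add]
  rcases a with i | a
  · rw [Sum.elim_inl]
    have h1 : ∀ b : Fin N, (1 / 2 : ℂ) * ((D.st (.inl i) (.inr b) (.inr b) : ℂ) * (D.lv (.inr b) : ℂ)) -
        (1 / 2 : ℂ) * ((D.st (.inl i) (rh14 σ τ (.inr b)) (.inr b) : ℂ) * (D.lv (.inr b) : ℂ)) =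
        (1 / 2 : ℂ) * if τ b ≠ b then ((D.ip (Pi.single i 1) (D.v b) * D.lev (D.v b) : ℤ) : ℂ) else 0 := by
      intro b
      have h2 : D.st (.inl i) (.inr b) (.inr b) = D.ip (Pi.single i 1) (D.v b) := if_pos rfl
      have h3 : D.st (.inl i) (rh14 σ τ (.inr b)) (.inr b) = if τ b = b then D.ip (Pi.single i 1) (D.v b) else 0 := by
        show (if (Sum.inr b : Fin r ⊕ Fin N) = .inr (τ b) then D.ip (Pi.single i 1) (D.v (τ b)) else 0) = _
        by_cases h4 : τ b = b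
        · rw [if_pos h4, if_pos (by rw [h4]), h4]
        · rw [if_neg h4, if_neg]
          intro h5
          exact h4 (Sum.inr_injective h5).symm
      have h4 : D.lv (.inr b) = D.lev (D.v b) := rfl
      rw [h2, h3, h4]
      by_cases h5 : τ b = b
      · rw [if_pos h5, if_neg (not_not.2 h5)]
        ring
      · rw [if_neg h5, if_pos h5]
        push_cast
        ring
    rw [Finset.sum_congr rfl fun b _ => h1 b, ← Finset.mul_sum, ← Finset.sum_filter, ← Int.cast_sum, c6 i]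
    push_cast
    ring
  · rw [Sum.elim_inr]
    refine Finset.sum_eq_zero fun b _ => ?_
    have h1 : D.st (.inr a) (.inr b) (.inr b) = 0 := by
      show (if D.v b = D.v a + D.v b then sg (D.bf (D.v a) (D.v b)) else 0) = 0
      rw [if_neg]
      intro h2
      exact h.v_ne a (by simpa using h2)
    have h2 : D.st (.inr a) (rh14 σ τ (.inr b)) (.inr b) = 0 := by
      show (if D.v b = D.v a + D.v (τ b) then sg (D.bf (D.v a) (D.v (τ b))) else 0) = 0
      rw [if_neg]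
      intro h3
      by_cases h4 : τ b = b
      · rw [h4] at h3
        exact h.v_ne a (by simpa using h3)
      · have h5 := f.orth b h4
        have h6 : D.v a = D.v b + -D.v (τ b) := by rw [h3]; abel
        have h7 := h.two a
        rw [h6, ip_add_left, ip_add_right, ip_add_right, ip_neg_right, ip_neg_left, ip_neg_left, ip_neg_right,
          h.two, h.two, h.ip_comm (D.v (τ b)), h5] at h7
        norm_num at h7
    rw [h1, h2]
    simp

theorem Fold.sum_yv (h : D.Ok) (f : D.Fold σ τ) :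
    ∑ b, D.yv b • toC (D.Lf σ τ b) = (diagonal fun i => (D.lv i : ℂ)) * toC (ef σ τ) := by
  have e3 : ∀ a, toC (D.Lf σ τ a) = (1 / 2 : ℂ) • (toC (D.L a) + toC (Th σ τ) * toC (D.L a) * toC (Th σ τ)) * toC (ef σ τ) := by
    intro a
    rw [Lf_eq, Pf, toC_mul', toC_smul', toC_add', toC_mul', toC_mul']
    norm_num
  have e1 : ∑ b, D.yv b • toC (D.Lf σ τ b) =
      (1 / 2 : ℂ) • (D.LC D.yv + toC (Th σ τ) * D.LC D.yv * toC (Th σ τ)) * toC (ef σ τ) := by
    rw [LC, Finset.mul_sum, Finset.sum_mul, ← Finset.sum_add_distrib, Finset.smul_sum, Finset.sum_mul]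
    refine Finset.sum_congr rfl fun b _ => ?_
    rw [e3, Matrix.mul_smul, Matrix.smul_mul (D.yv b), ← smul_add, smul_comm (1 / 2 : ℂ), Matrix.smul_mul (D.yv b)]
  rw [e1, h.LC_yv, ← f.lv_T, mul_assoc _ (toC (Th σ τ)), f.Tsq, mul_one, smul_add, ← add_smul]
  norm_num

theorem Fold.FF_lv (h : D.Ok) (f : D.Fold σ τ) {κ : ℤ}
    (c6 : ∀ i, ∑ b with τ b ≠ b, D.ip (Pi.single i 1) (D.v b) * D.lev (D.v b) = κ * D.y i) :
    FF D.M (D.Lf σ τ) ((diagonal fun i => (D.lv i : ℂ)) * toC (ef σ τ)) =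
      (-(κ / 2 : ℂ)) • ((diagonal fun i => (D.lv i : ℂ)) * toC (ef σ τ)) := by
  have key : ∀ b, ∑ a, (((D.M a b : ℚ) : ℂ) * (toC (D.Lf σ τ a) * ((diagonal fun i => (D.lv i : ℂ)) * toC (ef σ τ))).trace) =
      -(κ / 2 : ℂ) * D.yv b := by
    intro b
    rw [Fintype.sum_sum_type]
    simp only [f.tr_lv h c6, Sum.elim_inl, Sum.elim_inr, mul_zero, Finset.sum_const_zero, add_zero]
    rw [yv, neg_mul_neg, Finset.mul_sum]
    refine Finset.sum_congr rfl fun i _ => ?_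
    show toC D.M (.inl i) b * _ = _
    ring
  show ∑ a, ∑ b, (((D.M a b : ℚ) : ℂ) * (toC (D.Lf σ τ a) * ((diagonal fun i => (D.lv i : ℂ)) * toC (ef σ τ))).trace) •
    toC (D.Lf σ τ b) = _
  rw [Finset.sum_comm]
  conv_rhs => rw [← f.sum_yv h, Finset.smul_sum]
  refine Finset.sum_congr rfl fun b _ => ?_
  rw [← Finset.sum_smul, smul_smul, key]

theorem Fold.rank_De (f : D.Fold σ τ) (k : ℤ) : 2 * (Dl D.lv k * toC (ef σ τ)).rank =
    (if k = 0 then (Finset.univ.filter fun i => σ i ≠ i).card else 0) +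
      (Finset.univ.filter fun a => τ a ≠ a ∧ D.lev (D.v a) = k).card := by
  have hT : Dl D.lv k * toC (Th σ τ) = toC (Th σ τ) * Dl D.lv k := by
    ext c d
    rw [Dl, Matrix.diagonal_mul, Matrix.mul_diagonal]
    show _ * ((Th σ τ c d : ℚ) : ℂ) = ((Th σ τ c d : ℚ) : ℂ) * _
    rw [Th_apply14]
    by_cases h1 : c = rh14 σ τ d
    · rw [if_pos h1, h1, f.lv_rr]
      simp
    · rw [if_neg h1]
      simp
  have he := comm_e hT
  have hDD : Dl D.lv k * Dl D.lv k = Dl D.lv k := by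
    rw [Dl, Matrix.diagonal_mul_diagonal]
    congr 1
    funext i
    split_ifs <;> simp
  have hid : (Dl D.lv k * toC (ef σ τ)) * (Dl D.lv k * toC (ef σ τ)) = Dl D.lv k * toC (ef σ τ) := by
    calc (Dl D.lv k * toC (ef σ τ)) * (Dl D.lv k * toC (ef σ τ)) = Dl D.lv k * (toC (ef σ τ) * Dl D.lv k) * toC (ef σ τ) := by
          noncomm_ring
      _ = Dl D.lv k * Dl D.lv k * (toC (ef σ τ) * toC (ef σ τ)) := by
          rw [← he]
          noncomm_ring
      _ = _ := by rw [hDD, f.eeC]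
  have h1 := trace_eq_rank hid
  have h2 : ∀ c, (Dl D.lv k * toC (ef σ τ)) c c = (1 / 2 : ℂ) * if (rh14 σ τ c ≠ c ∧ D.lv c = k) then 1 else 0 := by
    intro c
    rw [Dl, Matrix.diagonal_mul, toC_Th, Matrix.smul_apply, Matrix.sub_apply, Matrix.one_apply_eq]
    have h3 : toC (Th σ τ) c c = if rh14 σ τ c = c then 1 else 0 := by
      show ((Th σ τ c c : ℚ) : ℂ) = _
      rw [Th_apply14]
      by_cases h4 : rh14 σ τ c = c
      · rw [if_pos h4, if_pos h4.symm]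
        simp
      · rw [if_neg h4, if_neg (Ne.symm h4)]
        simp
    rw [h3]
    by_cases h4 : rh14 σ τ c = c <;> by_cases h5 : D.lv c = k <;> simp [h4, h5]
  rw [Matrix.trace] at h1
  simp only [Matrix.diag_apply, h2] at h1
  rw [← Finset.mul_sum, Fintype.sum_sum_type] at h1
  have h3 : ∑ i : Fin r, (if (rh14 σ τ (.inl i) ≠ .inl i ∧ D.lv (.inl i) = k) then (1 : ℂ) else 0) =
      ((if k = 0 then (Finset.univ.filter fun i => σ i ≠ i).card else 0 : ℕ) : ℂ) := by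
    have h4 : ∀ i : Fin r, (rh14 σ τ (.inl i) ≠ .inl i ∧ D.lv (.inl i) = k) ↔ (σ i ≠ i ∧ 0 = k) := by
      intro i
      have : (rh14 σ τ (.inl i) = (.inl i : Fin r ⊕ Fin N)) ↔ σ i = i :=
        ⟨fun h5 => Sum.inl_injective h5, fun h5 => congrArg Sum.inl h5⟩
      rw [Ne, this]
      rfl
    simp only [h4]
    by_cases hk : k = 0
    · rw [if_pos hk, hk, Finset.card_filter]
      push_cast
      refine Finset.sum_congr rfl fun i _ => ?_
      simp
    · rw [if_neg hk]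
      simp [Ne.symm hk]
  have h4 : ∑ a : Fin N, (if (rh14 σ τ (.inr a) ≠ .inr a ∧ D.lv (.inr a) = k) then (1 : ℂ) else 0) =
      ((Finset.univ.filter fun a => τ a ≠ a ∧ D.lev (D.v a) = k).card : ℂ) := by
    have h4 : ∀ i : Fin N, (rh14 σ τ (.inr i) ≠ .inr i ∧ D.lv (.inr i) = k) ↔ (τ i ≠ i ∧ D.lev (D.v i) = k) := by
      intro i
      have : (rh14 σ τ (.inr i) = (.inr i : Fin r ⊕ Fin N)) ↔ τ i = i :=
        ⟨fun h5 => Sum.inr_injective h5, fun h5 => congrArg Sum.inr h5⟩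
      rw [Ne, this]
      rfl
    simp only [h4]
    rw [Finset.card_filter]
    push_cast
    rfl
  rw [h3, h4] at h1
  have h5 : (2 : ℂ) * ((Dl D.lv k * toC (ef σ τ)).rank : ℂ) =
      ((if k = 0 then (Finset.univ.filter fun i => σ i ≠ i).card else 0 : ℕ) : ℂ) +
      ((Finset.univ.filter fun a => τ a ≠ a ∧ D.lev (D.v a) = k).card : ℂ) := by
    rw [← h1]
    ring
  exact_mod_cast h5

/-- BLOCK FASM -/
theorem Fold.sharp (h : D.Ok) (f : D.Fold σ τ)
    (c0 : ∀ a, τ a ≠ a → D.lev (D.v a) = -1 ∨ D.lev (D.v a) = 0 ∨ D.lev (D.v a) = 1)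
    (c1 : ∀ j, D.y j = 0 → ∃ a b, D.lev (D.v a) = 1 ∧ D.v b = D.v a + Pi.single j 1)
    (c2 : ∀ a b, τ a ≠ a → τ b ≠ b → D.lev (D.v a) = 1 → D.lev (D.v b) = 1 →
      ∃ c, τ c ≠ c ∧ D.lev (D.v c) = 1 ∧ D.ip (D.v c - D.v (τ c)) (D.v a) ≠ 0 ∧ D.ip (D.v b - D.v (τ b)) (D.v c) ≠ 0)
    (c3 : ∀ c, τ c ≠ c → D.lev (D.v c) = 0 → ∃ a, τ a = a ∧ D.lev (D.v a) = 1 ∧ D.ip (D.v a) (D.v c) = -1)
    (c4 : ∃ a, τ a ≠ a ∧ D.lev (D.v a) = 1)
    (c5 : ∀ b c, τ b ≠ b → τ c ≠ c → D.v c + D.v (τ c) = D.v b + D.v (τ b) → c = b ∨ c = τ b)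
    {κ : ℤ} (hκ : κ ≠ 0)
    (c6 : ∀ i, ∑ b with τ b ≠ b, D.ip (Pi.single i 1) (D.v b) * D.lev (D.v b) = κ * D.y i) {s t : ℕ}
    (hs : (Finset.univ.filter fun a => τ a ≠ a ∧ D.lev (D.v a) = 1).card = 2 * s)
    (ht : (Finset.univ.filter fun i => σ i ≠ i).card + (Finset.univ.filter fun a => τ a ≠ a ∧ D.lev (D.v a) = 0).card =
      2 * t) (hrk : r + N < 2 * s * t) : Sharp s t := by
  have S1 := f.split h c0
  have hH0 : (diagonal fun i => (D.lv i : ℂ)) * toC (ef σ τ) = (Dl D.lv 1 - Dl D.lv (-1)) * toC (ef σ τ) := by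
    rw [Dl, Dl, Matrix.diagonal_sub]
    ext i j
    rw [Matrix.diagonal_mul, Matrix.diagonal_mul]
    by_cases h2 : D.lv i = -1 ∨ D.lv i = 0 ∨ D.lv i = 1
    · congr 1
      rcases h2 with h2 | h2 | h2 <;> rw [h2] <;> norm_num
    · have h3 : toC (ef σ τ) i j = 0 := by
        show ((ef σ τ i j : ℚ) : ℂ) = 0
        rw [S1.lve i (fun h4 => h2 (Or.inl h4)) (fun h4 => h2 (Or.inr (Or.inl h4))) (fun h4 => h2 (Or.inr (Or.inr h4)))]
        simp
      rw [h3, mul_zero, mul_zero]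
  refine sharp_of_split S1 hH0 (f.gr h) (c := -(κ / 2 : ℂ)) ?_ (f.FF_lv h c6) ?_ ?_ ?_ ?_
  · rw [neg_ne_zero]
    have : (κ : ℂ) ≠ 0 := by exact_mod_cast hκ
    exact div_ne_zero this two_ne_zero
  · intro B hBe _ hB
    have hB1 : B * toC (ef σ τ) = B := by
      rw [← hBe, mul_assoc, f.eeC]
    have hB2 : toC (ef σ τ) * B = B := by
      rw [← hBe, ← mul_assoc, ← mul_assoc, f.eeC]
    refine f.scalar h c0 c1 c2 c3 c4 c5 B hBe fun a ha => ?_
    have g := f.good h a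
    have h2 := hB _ g
    have hl : D.lev (D.v (τ a)) = D.lev (D.v a) := by rw [f.vs, f.lev_s]
    have h3 : toC (D.L (.inr a) + D.L (.inr (τ a))) * ((diagonal fun i => (D.lv i : ℂ)) * toC (ef σ τ)) -
        (diagonal fun i => (D.lv i : ℂ)) * toC (ef σ τ) * toC (D.L (.inr a) + D.L (.inr (τ a))) =
        -(D.lev (D.v a) : ℂ) • (toC (D.L (.inr a) + D.L (.inr (τ a))) * toC (ef σ τ)) := by
      have e1 := D.L_lv a
      have e2 := D.L_lv (τ a)
      rw [hl] at e2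
      have e3 : toC (D.L (.inr a) + D.L (.inr (τ a))) * (diagonal fun i => (D.lv i : ℂ)) -
          (diagonal fun i => (D.lv i : ℂ)) * toC (D.L (.inr a) + D.L (.inr (τ a))) =
          -(D.lev (D.v a) : ℂ) • toC (D.L (.inr a) + D.L (.inr (τ a))) := by
        rw [toC_add', add_mul, mul_add, add_sub_add_comm, e1, e2, smul_add]
      rw [mul_assoc (diagonal _), ← g.comm, ← mul_assoc, ← mul_assoc, ← sub_mul, e3, Matrix.smul_mul]
    rw [h3, Matrix.mul_smul, Matrix.smul_mul] at h2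
    have h4 : (-(D.lev (D.v a) : ℂ)) ≠ 0 := by
      rw [neg_ne_zero]
      exact_mod_cast ha
    have h5 := smul_right_injective _ h4 h2
    rw [g.comm, ← mul_assoc, hB1, ← g.comm, mul_assoc, hB2] at h5
    exact h5
  · have := f.rank_De 1 (D := D)
    rw [if_neg (by norm_num), zero_add, hs] at this
    omega
  · have := f.rank_De 0 (D := D)
    rw [if_pos rfl, ht] at this
    omega
  · refine (FF_rank D.M (D.Lf σ τ)).trans_lt ?_
    rw [Fintype.card_sum, Fintype.card_fin, Fintype.card_fin]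
    exact hrk

end RD

end C9
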