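import Pool.Agent.Helper81.C9.Adj
import Pool.Agent.Helper63.C9.E6
import Pool.Agent.Helper63.C9.E7
import Pool.Agent.Helper98.C9.F4Data

/-!
Project LT (MP_b8862a_ag), block C9: the groups `F_4`, `E_6` and `E_7`.
-/

open Matrix Module

namespace MH

theorem sharp_F4 :
    ∃ (n : Type) (_ : Fintype n) (_ : DecidableEq n) (Q : Matrix n n ℚ) (P : ℤ → Matrix n n ℂ), IsHW 2 Q {0, 1, 2} P ∧
      (∀ A : Matrix n n ℚ, (∀ p, toC A * P p = P p * toC A) → ∃ c : ℚ, A = c • (1 : Matrix n n ℚ)) ∧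
      (P 2).rank = 6 ∧ (P 1).rank = 14 ∧ ∃ g : GL n ℂ, IsGQ 2 Q g ∧ g ∉ MT {0, 1, 2} P := C9.sharp_F4

theorem sharp_E6 :
    ∃ (n : Type) (_ : Fintype n) (_ : DecidableEq n) (Q : Matrix n n ℚ) (P : ℤ → Matrix n n ℂ), IsHW 2 Q {0, 1, 2} P ∧
      (∀ A : Matrix n n ℚ, (∀ p, toC A * P p = P p * toC A) → ∃ c : ℚ, A = c • (1 : Matrix n n ℚ)) ∧
      (P 2).rank = 16 ∧ (P 1).rank = 46 ∧ ∃ g : GL n ℂ, IsGQ 2 Q g ∧ g ∉ MT {0, 1, 2} P :=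
  C9.E6.ok.adj C9.E6.h1 C9.E6.c1 C9.E6.c2 C9.E6.c3 C9.E6.c4 (κ := 24) (by norm_num) C9.E6.c5 C9.E6.hs C9.E6.ht (by norm_num)

theorem sharp_E7 :
    ∃ (n : Type) (_ : Fintype n) (_ : DecidableEq n) (Q : Matrix n n ℚ) (P : ℤ → Matrix n n ℂ), IsHW 2 Q {0, 1, 2} P ∧
      (∀ A : Matrix n n ℚ, (∀ p, toC A * P p = P p * toC A) → ∃ c : ℚ, A = c • (1 : Matrix n n ℚ)) ∧
      (P 2).rank = 27 ∧ (P 1).rank = 79 ∧ ∃ g : GL n ℂ, IsGQ 2 Q g ∧ g ∉ MT {0, 1, 2} P :=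
  C9.E7.ok.adj C9.E7.h1 C9.E7.c1 C9.E7.c2 C9.E7.c3 C9.E7.c4 (κ := 36) (by norm_num) C9.E7.c5 C9.E7.hs C9.E7.ht (by norm_num)

end MH
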