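import Pool.Agent.Helper81.C9.Defs

/-!
Project LT (MP_b8862a_ag), block C9: the Lie algebra of a simply laced root system, in coordinates.
-/

set_option linter.unusedSectionVars false

open Matrix Module MH

namespace C9

namespace RD

variable {r N : ℕ} {D : RD r N}

theorem sg_add (m n : ℤ) : sg (m + n) = sg m * sg n := by
  unfold sg
  rcases Int.emod_two_eq_zero_or_one m with h1 | h1 <;> rcases Int.emod_two_eq_zero_or_one n with h2 | h2 <;>
    rw [Int.add_emod, h1, h2] <;> norm_num

theorem sg_neg (m : ℤ) : sg (-m) = sg m := by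
  unfold sg
  rcases Int.emod_two_eq_zero_or_one m with h1 | h1
  · rw [if_pos h1, if_pos (by omega)]
  · rw [if_neg (by omega), if_neg (by omega)]

theorem sg_mul_self (m : ℤ) : sg m * sg m = 1 := by
  unfold sg
  split_ifs <;> norm_num

theorem sg_zero : sg 0 = 1 := rfl

theorem sg_one : sg 1 = -1 := rfl

theorem sg_neg_one : sg (-1) = -1 := rfl

section forms

variable (D)

theorem ip_add_left (x x' z : Fin r → ℤ) : D.ip (x + x') z = D.ip x z + D.ip x' z := by
  simp only [ip, Pi.add_apply, add_mul, Finset.sum_add_distrib]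

theorem ip_add_right (x z z' : Fin r → ℤ) : D.ip x (z + z') = D.ip x z + D.ip x z' := by
  simp only [ip, Pi.add_apply, mul_add, Finset.sum_add_distrib]

theorem ip_neg_left (x z : Fin r → ℤ) : D.ip (-x) z = -D.ip x z := by
  simp only [ip, Pi.neg_apply, neg_mul, Finset.sum_neg_distrib]

theorem ip_neg_right (x z : Fin r → ℤ) : D.ip x (-z) = -D.ip x z := by
  simp only [ip, Pi.neg_apply, mul_neg, Finset.sum_neg_distrib]

theorem bf_add_left (x x' z : Fin r → ℤ) : D.bf (x + x') z = D.bf x z + D.bf x' z := by
  simp only [bf, Pi.add_apply, add_mul, Finset.sum_add_distrib]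

theorem bf_add_right (x z z' : Fin r → ℤ) : D.bf x (z + z') = D.bf x z + D.bf x z' := by
  simp only [bf, Pi.add_apply, mul_add, Finset.sum_add_distrib]

theorem bf_neg_left (x z : Fin r → ℤ) : D.bf (-x) z = -D.bf x z := by
  simp only [bf, Pi.neg_apply, neg_mul, Finset.sum_neg_distrib]

theorem bf_neg_right (x z : Fin r → ℤ) : D.bf x (-z) = -D.bf x z := by
  simp only [bf, Pi.neg_apply, mul_neg, Finset.sum_neg_distrib]

theorem lev_add (x z : Fin r → ℤ) : D.lev (x + z) = D.lev x + D.lev z := by
  simp only [lev, Pi.add_apply, mul_add, Finset.sum_add_distrib]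

theorem lev_neg (x : Fin r → ℤ) : D.lev (-x) = -D.lev x := by
  simp only [lev, Pi.neg_apply, mul_neg, Finset.sum_neg_distrib]

theorem ip_zero_left (z : Fin r → ℤ) : D.ip 0 z = 0 := by
  simp [ip]

theorem lev_zero : D.lev 0 = 0 := by
  simp [lev]

end forms

/-- being a root -/
def R (D : RD r N) (x : Fin r → ℤ) : Prop := ∃ a, D.v a = x

namespace Ok

variable (h : D.Ok)
include h

theorem ip_eq (x z : Fin r → ℤ) : D.ip x z = D.bf x z + D.bf z x := by
  unfold ip bf
  rw [Finset.sum_comm (f := fun i j => z i * D.B i j * x j), ← Finset.sum_add_distrib]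
  refine Finset.sum_congr rfl fun i _ => ?_
  rw [← Finset.sum_add_distrib]
  refine Finset.sum_congr rfl fun j _ => ?_
  rw [h.gb]
  ring

theorem ip_comm (x z : Fin r → ℤ) : D.ip x z = D.ip z x := by
  rw [h.ip_eq, h.ip_eq, add_comm]

theorem R_two {x : Fin r → ℤ} (hx : D.R x) : D.ip x x = 2 := by
  obtain ⟨a, rfl⟩ := hx
  exact h.two a

theorem R_bf {x : Fin r → ℤ} (hx : D.R x) : D.bf x x = 1 := by
  have h1 := h.ip_eq x x
  rw [h.R_two hx] at h1
  omega

theorem R_neg {x : Fin r → ℤ} (hx : D.R x) : D.R (-x) := by
  obtain ⟨a, rfl⟩ := hx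
  exact h.neg a

theorem R_ne {x : Fin r → ℤ} (hx : D.R x) : x ≠ 0 := by
  rintro rfl
  have h1 := h.R_two hx
  rw [D.ip_zero_left] at h1
  omega

theorem R_bd {x z : Fin r → ℤ} (hx : D.R x) (hz : D.R z) : -1 ≤ D.ip x z ∨ z = -x := by
  obtain ⟨a, rfl⟩ := hx
  obtain ⟨b, rfl⟩ := hz
  exact h.bd a b

theorem R_le {x z : Fin r → ℤ} (hx : D.R x) (hz : D.R z) : D.ip x z ≤ 1 ∨ z = x := by
  rcases h.R_bd hx (h.R_neg hz) with h1 | h1
  · left
    rw [D.ip_neg_right] at h1
    omega
  · right
    exact neg_injective h1

theorem R_add {x z : Fin r → ℤ} (hx : D.R x) (hz : D.R z) (hi : D.ip x z = -1) : D.R (x + z) := by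
  obtain ⟨a, rfl⟩ := hx
  obtain ⟨b, rfl⟩ := hz
  obtain ⟨c, hc⟩ := h.add a b hi
  exact ⟨c, hc⟩

theorem R_add_ip {x z : Fin r → ℤ} (hx : D.R x) (hz : D.R z) (hs : D.R (x + z)) : D.ip x z = -1 := by
  have h1 := h.R_two hs
  rw [D.ip_add_left, D.ip_add_right, D.ip_add_right, h.R_two hx, h.R_two hz, h.ip_comm z x] at h1
  omega

/-- the sign of a commutator -/
theorem sg_swap (x z : Fin r → ℤ) : sg (D.bf x z) * sg (D.bf z x) = sg (D.ip x z) := by
  rw [← sg_add, ← h.ip_eq]

end Ok

/-- the root vectors -/
def E (D : RD r N) (x : Fin r → ℤ) : Fin r ⊕ Fin N → ℤ := Sum.elim 0 fun c => if D.v c = x then 1 else 0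

/-- the elements of the Cartan algebra -/
def Hh (D : RD r N) (x : Fin r → ℤ) : Fin r ⊕ Fin N → ℤ := Sum.elim x 0

theorem E_not {x : Fin r → ℤ} (hx : ¬ D.R x) : D.E x = 0 := by
  funext c
  rcases c with c | c
  · rfl
  · show (if D.v c = x then (1 : ℤ) else 0) = 0
    rw [if_neg fun h => hx ⟨c, h⟩]

theorem E_single (h : D.Ok) (a : Fin N) : D.E (D.v a) = Pi.single (Sum.inr a) 1 := by
  funext c
  rcases c with c | c
  · rw [Pi.single_apply, if_neg (by simp)]
    rfl
  · rw [Pi.single_apply]
    show (if D.v c = D.v a then (1 : ℤ) else 0) = _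
    by_cases hc : c = a
    · subst hc
      rw [if_pos rfl, if_pos rfl]
    · rw [if_neg fun h' => hc (h.inj h'), if_neg (by simpa using hc)]

theorem Hh_single (i : Fin r) : D.Hh (Pi.single i 1) = Pi.single (Sum.inl i) 1 := by
  funext c
  rcases c with c | c
  · show (Pi.single i 1 : Fin r → ℤ) c = _
    rw [Pi.single_apply, Pi.single_apply]
    simp
  · rw [Pi.single_apply, if_neg (by simp)]
    rfl

theorem Hh_add (x z : Fin r → ℤ) : D.Hh (x + z) = D.Hh x + D.Hh z := by
  funext c
  rcases c with c | c
  · rfl
  · simp [Hh]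

theorem Hh_neg (x : Fin r → ℤ) : D.Hh (-x) = -D.Hh x := by
  funext c
  rcases c with c | c
  · rfl
  · simp [Hh]

/-- the bracket -/
def br (D : RD r N) : (Fin r ⊕ Fin N → ℤ) →ₗ[ℤ] (Fin r ⊕ Fin N → ℤ) →ₗ[ℤ] (Fin r ⊕ Fin N → ℤ) :=
  LinearMap.mk₂ ℤ (fun u w c => ∑ a, ∑ b, u a * w b * D.st a b c)
    (fun u u' w => by
      funext c
      simp only [Pi.add_apply, add_mul, Finset.sum_add_distrib])
    (fun k u w => by
      funext c
      simp only [Pi.smul_apply, smul_eq_mul, Finset.mul_sum, mul_assoc])
    (fun u w w' => by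
      funext c
      simp only [Pi.add_apply, mul_add, add_mul, Finset.sum_add_distrib])
    (fun k u w => by
      funext c
      simp only [Pi.smul_apply, smul_eq_mul, Finset.mul_sum]
      refine Finset.sum_congr rfl fun a _ => Finset.sum_congr rfl fun b _ => ?_
      ring)

theorem br_apply (u w : Fin r ⊕ Fin N → ℤ) (c : Fin r ⊕ Fin N) :
    D.br u w c = ∑ a, ∑ b, u a * w b * D.st a b c := rfl

theorem br_single (a b : Fin r ⊕ Fin N) : D.br (Pi.single a 1) (Pi.single b 1) = D.st a b := by
  funext c
  rw [br_apply, Finset.sum_eq_single a, Finset.sum_eq_single b]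
  · simp
  · intro b' _ hb
    simp [Pi.single_apply, hb]
  · intro hb
    exact absurd (Finset.mem_univ _) hb
  · intro a' _ ha
    simp [Pi.single_apply, ha]
  · intro ha
    exact absurd (Finset.mem_univ _) ha

theorem Hh_eq_sum (x : Fin r → ℤ) : D.Hh x = ∑ i, x i • (Pi.single (Sum.inl i) 1 : Fin r ⊕ Fin N → ℤ) := by
  funext c
  rw [Finset.sum_apply]
  rcases c with c | c
  · rw [Finset.sum_eq_single c]
    · simp [Hh]
    · intro i _ hi
      simp [Pi.single_apply, Ne.symm hi]
    · intro hc
      exact absurd (Finset.mem_univ _) hc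
  · rw [Finset.sum_eq_zero]
    · rfl
    · intro i _
      simp [Pi.single_apply]

theorem ip_single_sum (x z : Fin r → ℤ) : ∑ i, x i * D.ip (Pi.single i 1) z = D.ip x z := by
  unfold ip
  refine Finset.sum_congr rfl fun i _ => ?_
  rw [Finset.sum_eq_single i]
  · rw [Finset.mul_sum]
    refine Finset.sum_congr rfl fun j _ => ?_
    rw [Pi.single_eq_same]
    ring
  · intro k _ hk
    simp [Pi.single_apply, hk]
  · intro hc
    exact absurd (Finset.mem_univ _) hc

theorem br_HE (h : D.Ok) (x z : Fin r → ℤ) : D.br (D.Hh x) (D.E z) = D.ip x z • D.E z := by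
  by_cases hz : D.R z
  · obtain ⟨b, rfl⟩ := hz
    rw [E_single h, Hh_eq_sum, map_sum, LinearMap.sum_apply]
    simp only [map_smul, LinearMap.smul_apply, br_single]
    funext c
    rw [Finset.sum_apply]
    simp only [Pi.smul_apply, smul_eq_mul, Pi.single_apply]
    rw [← ip_single_sum, Finset.sum_mul]
    refine Finset.sum_congr rfl fun i _ => ?_
    show x i * (if c = .inr b then D.ip (Pi.single i 1) (D.v b) else 0) = _
    split_ifs
    · ring
    · ring
  · rw [E_not hz, map_zero, smul_zero]

theorem br_EH (h : D.Ok) (x z : Fin r → ℤ) : D.br (D.E z) (D.Hh x) = -(D.ip x z • D.E z) := by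
  by_cases hz : D.R z
  · obtain ⟨b, rfl⟩ := hz
    rw [E_single h, Hh_eq_sum, map_sum]
    simp only [map_smul, br_single]
    funext c
    rw [Finset.sum_apply]
    simp only [Pi.smul_apply, smul_eq_mul, Pi.single_apply, Pi.neg_apply]
    rw [← ip_single_sum, Finset.sum_mul, ← Finset.sum_neg_distrib]
    refine Finset.sum_congr rfl fun i _ => ?_
    show x i * (if c = .inr b then -D.ip (Pi.single i 1) (D.v b) else 0) = _
    split_ifs
    · ring
    · ring
  · rw [E_not hz, map_zero, LinearMap.zero_apply, smul_zero, neg_zero]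

theorem br_HH (x z : Fin r → ℤ) : D.br (D.Hh x) (D.Hh z) = 0 := by
  have h0 : ∀ i j : Fin r, D.st (.inl i) (.inl j) = 0 := by
    intro i j
    funext c
    rfl
  rw [Hh_eq_sum x, Hh_eq_sum z]
  simp only [map_sum, LinearMap.sum_apply, map_smul, LinearMap.smul_apply, br_single, h0, smul_zero, Finset.sum_const_zero]

theorem br_EE (h : D.Ok) (a b : Fin N) : D.br (D.E (D.v a)) (D.E (D.v b)) =
    sg (D.bf (D.v a) (D.v b)) • D.E (D.v a + D.v b) - if D.v b = -D.v a then D.Hh (D.v a) else 0 := by
  rw [E_single h, E_single h, br_single]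
  funext c
  rcases c with c | c
  · show (if D.v b = -D.v a then -D.v a c else 0) = sg _ * (0 : ℤ) - _
    split_ifs <;> simp [Hh]
  · show (if D.v c = D.v a + D.v b then sg (D.bf (D.v a) (D.v b)) else 0) =
      sg _ * (if D.v c = D.v a + D.v b then 1 else 0) - _
    split_ifs <;> simp [Hh]

theorem EE_neg1 (h : D.Ok) {x z : Fin r → ℤ} (hx : D.R x) (hz : D.R z) (hi : D.ip x z = -1) :
    D.br (D.E x) (D.E z) = sg (D.bf x z) • D.E (x + z) := by
  obtain ⟨a, rfl⟩ := hx
  obtain ⟨b, rfl⟩ := hz
  rw [br_EE h, if_neg, sub_zero]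
  intro hc
  rw [hc, D.ip_neg_right, h.two] at hi
  omega

theorem EE_opp (h : D.Ok) {x z : Fin r → ℤ} (hx : D.R x) (hi : z = -x) :
    D.br (D.E x) (D.E z) = -D.Hh x := by
  have hz : D.R z := by rw [hi]; exact h.R_neg hx
  obtain ⟨a, rfl⟩ := hx
  obtain ⟨b, rfl⟩ := hz
  rw [br_EE h, if_pos hi, hi, add_neg_cancel, E_not, smul_zero, zero_sub]
  intro h0
  exact h.R_ne h0 rfl

theorem EE_zero (h : D.Ok) {x z : Fin r → ℤ} (hx : D.R x) (hz : D.R z) (hi : 0 ≤ D.ip x z) :
    D.br (D.E x) (D.E z) = 0 := by
  have h1 : ¬ D.R (x + z) := by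
    intro hs
    have := h.R_add_ip hx hz hs
    omega
  obtain ⟨a, rfl⟩ := hx
  obtain ⟨b, rfl⟩ := hz
  rw [br_EE h, if_neg, E_not h1, smul_zero, sub_zero]
  intro hc
  rw [hc, D.ip_neg_right, h.two] at hi
  omega

/-- Jacobi's identity for three root vectors -/
theorem jac_rrr (h : D.Ok) {x z w : Fin r → ℤ} (hx : D.R x) (hz : D.R z) (hw : D.R w) :
    D.br (D.E x) (D.br (D.E z) (D.E w)) = D.br (D.br (D.E x) (D.E z)) (D.E w) + D.br (D.E z) (D.br (D.E x) (D.E w)) := by
  have bxz := D.bf_add_left x z w
  -- three cases for a pair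
  have cs : ∀ {x z : Fin r → ℤ}, D.R x → D.R z → D.ip x z = -1 ∨ z = -x ∨ 0 ≤ D.ip x z := by
    intro x z hx hz
    rcases h.R_bd hx hz with h1 | h1
    · rcases h1.lt_or_eq with h2 | h2
      · exact Or.inr (Or.inr (by omega))
      · exact Or.inl h2.symm
    · exact Or.inr (Or.inl h1)
  have hs := fun m => sg_mul_self m
  by_cases q2 : w = -z
  · -- the second pair is opposite
    subst q2
    rw [EE_opp h hz rfl, map_neg, br_EH h, neg_neg, h.ip_comm z x]
    have t1 : D.ip x (-z) = -D.ip x z := D.ip_neg_right x z
    rcases cs hx hz with p1 | p1 | p1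
    · rw [EE_neg1 h hx hz p1, EE_zero h hx hw (by omega), map_zero, add_zero, LinearMap.map_smul₂, EE_neg1 h (h.R_add hx hz p1) hw (by
        rw [D.ip_neg_right, D.ip_add_left, h.R_two hz, p1]; norm_num), smul_smul, p1, add_neg_cancel_right, D.bf_neg_right,
        D.bf_add_left, h.R_bf hz, sg_neg, sg_add, ← mul_assoc, hs, sg_one, one_mul]
    · subst p1
      rw [EE_opp h hx rfl, neg_neg, LinearMap.map_neg₂ , br_HE h, EE_zero h hx hx (by rw [h.R_two hx]; norm_num), map_zero, add_zero,
        D.ip_neg_right, neg_smul]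
    · rw [EE_zero h hx hz p1, LinearMap.map_zero₂, zero_add]
      rcases h.R_le hx hz with p2 | p2
      · rcases p1.lt_or_eq with p3 | p3
        · have p4 : D.ip x z = 1 := by omega
          rw [EE_neg1 h hx hw (by omega), map_smul, EE_neg1 h hz (h.R_add hx hw (by omega)) (by
            rw [D.ip_add_right, D.ip_neg_right, h.R_two hz, h.ip_comm, p4]; norm_num), smul_smul, p4,
            show z + (x + -z) = x by abel, D.bf_neg_right, sg_neg, D.bf_add_right, D.bf_neg_right, h.R_bf hz, sg_add,
            ← mul_assoc, h.sg_swap, p4, sg_neg, sg_one]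
          norm_num
        · rw [EE_zero h hx hw (by omega), map_zero, ← p3, zero_smul]
      · subst p2
        rw [EE_opp h hx rfl, map_neg, br_EH h, neg_neg]
  · by_cases p2 : z = -x
    · subst p2
      rw [EE_opp h hx rfl, LinearMap.map_neg₂, br_HE h]
      have q1 : D.ip (-x) w = -D.ip x w := D.ip_neg_left x w
      rcases cs hz hw with q3 | q3 | q3
      · rw [EE_neg1 h hz hw q3, map_smul, EE_neg1 h hx (h.R_add hz hw q3) (by
          rw [D.ip_add_right, D.ip_neg_right, h.R_two hx]; omega), EE_zero h hx hw (by omega), map_zero, add_zero, smul_smul,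
          show x + (-x + w) = w by abel, D.bf_neg_left, sg_neg, D.bf_add_right, D.bf_neg_right, h.R_bf hx, sg_add,
          mul_left_comm, hs, mul_one, show D.ip x w = 1 by omega]
        simp [sg_neg_one]
      · exact absurd q3 q2
      · rw [EE_zero h hz hw q3, map_zero]
        rcases cs hx hw with t1 | t1 | t1
        · rw [EE_neg1 h hx hw t1, map_smul, EE_neg1 h hz (h.R_add hx hw t1) (by
            rw [D.ip_neg_left, D.ip_add_right, h.R_two hx, t1]; norm_num), smul_smul, show -x + (x + w) = w by abel,
            D.bf_neg_left, sg_neg, D.bf_add_right, h.R_bf hx, sg_add, mul_left_comm, hs, mul_one, t1]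
          simp [sg_one]
        · subst t1
          rw [EE_opp h hx rfl, map_neg, br_EH h, neg_neg, D.ip_neg_right, neg_smul, neg_neg, add_neg_cancel]
        · rw [EE_zero h hx hw t1, map_zero, add_zero, show D.ip x w = 0 by omega, zero_smul, neg_zero]
    · by_cases t2 : w = -x
      · subst t2
        rw [EE_opp h hx rfl, map_neg, br_EH h, neg_neg]
        have q1 : D.ip z (-x) = -D.ip x z := by rw [D.ip_neg_right, h.ip_comm]
        rcases cs hz hw with q3 | q3 | q3
        · rw [EE_neg1 h hz hw q3, map_smul, EE_neg1 h hx (h.R_add hz hw q3) (by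
            rw [D.ip_add_right, D.ip_neg_right, h.R_two hx]; omega), EE_zero h hx hz (by omega), LinearMap.map_zero₂,
            zero_add, smul_smul, show x + (z + -x) = z by abel, D.bf_neg_right, sg_neg, D.bf_add_right, D.bf_neg_right,
            h.R_bf hx, sg_add, ← mul_assoc, h.sg_swap, show D.ip z x = 1 by rw [h.ip_comm]; omega,
            show D.ip x z = 1 by omega, sg_neg, sg_one]
          norm_num
        · exact absurd q3 q2
        · rw [EE_zero h hz hw q3, map_zero]
          rcases cs hx hz with p1 | p1 | p1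
          · rw [EE_neg1 h hx hz p1, LinearMap.map_smul₂, EE_neg1 h (h.R_add hx hz p1) hw (by
              rw [D.ip_neg_right, D.ip_add_left, h.R_two hx, h.ip_comm z x, p1]; norm_num), smul_smul,
              show x + z + -x = z by abel, D.bf_neg_right, sg_neg, D.bf_add_left, h.R_bf hx, sg_add, mul_left_comm,
              h.sg_swap, p1]
            simp [sg_one, sg_neg_one]
          · exact absurd p1 p2
          · rw [EE_zero h hx hz p1, LinearMap.map_zero₂, zero_add, show D.ip x z = 0 by omega, zero_smul]
      · -- no opposite pair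
        rcases cs hz hw with q1 | q1 | q1
        · rcases cs hx hz with p1 | p1 | p1
          · rcases cs hx hw with t1 | t1 | t1
            · -- the sum is zero
              have h1 := h.R_add hz hw q1
              have h2 : x = -(z + w) := by
                rcases h.R_bd h1 hx with h3 | h3
                · rw [D.ip_add_left, h.ip_comm z x, h.ip_comm w x, p1, t1] at h3
                  omega
                · exact h3
              have h3 : w = -x - z := by rw [h2]; abel
              rw [EE_neg1 h hz hw q1, EE_neg1 h hx hz p1, EE_neg1 h hx hw t1, map_smul, LinearMap.map_smul₂, map_smul,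
                EE_opp h hx (by rw [h2]; abel), EE_opp h (h.R_add hx hz p1) (by rw [h2]; abel),
                EE_opp h hz (by rw [h2]; abel), Hh_add]
              have e1 : sg (D.bf z w) = sg (D.bf x z) := by
                have e2 := h.sg_swap x z
                rw [p1, sg_neg_one] at e2
                rw [h3, sub_eq_add_neg, D.bf_add_right, D.bf_neg_right, D.bf_neg_right, sg_add, sg_neg, sg_neg, h.R_bf hz,
                  sg_one]
                have e3 := hs (D.bf x z)
                have e4 : sg (D.bf z x) = -sg (D.bf x z) := by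
                  calc sg (D.bf z x) = (sg (D.bf x z) * sg (D.bf x z)) * sg (D.bf z x) := by rw [e3, one_mul]
                    _ = sg (D.bf x z) * (sg (D.bf x z) * sg (D.bf z x)) := by ring
                    _ = _ := by rw [e2]; ring
                rw [e4]
                ring
              have e5 : sg (D.bf x w) = -sg (D.bf x z) := by
                rw [h3, sub_eq_add_neg, D.bf_add_right, D.bf_neg_right, D.bf_neg_right, sg_add, sg_neg, sg_neg, h.R_bf hx,
                  sg_one]
                ring
              rw [e1, e5]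
              module
            · exact absurd t1 t2
            · rw [EE_neg1 h hz hw q1, EE_neg1 h hx hz p1, EE_zero h hx hw t1, map_smul, LinearMap.map_smul₂, map_zero,
                add_zero]
              rcases t1.lt_or_eq with t3 | t3
              · rw [EE_zero h hx (h.R_add hz hw q1) (by rw [D.ip_add_right]; omega),
                  EE_zero h (h.R_add hx hz p1) hw (by rw [D.ip_add_left]; omega), smul_zero, smul_zero]
              · rw [EE_neg1 h hx (h.R_add hz hw q1) (by rw [D.ip_add_right]; omega),
                  EE_neg1 h (h.R_add hx hz p1) hw (by rw [D.ip_add_left]; omega), smul_smul, smul_smul, add_assoc,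
                  D.bf_add_right, D.bf_add_left, sg_add, sg_add]
                congr 1
                ring
          · exact absurd p1 p2
          · rcases cs hx hw with t1 | t1 | t1
            · rw [EE_neg1 h hz hw q1, EE_zero h hx hz p1, EE_neg1 h hx hw t1, map_smul, LinearMap.map_zero₂, map_smul,
                zero_add]
              rcases p1.lt_or_eq with t3 | t3
              · rw [EE_zero h hx (h.R_add hz hw q1) (by rw [D.ip_add_right]; omega),
                  EE_zero h hz (h.R_add hx hw t1) (by rw [D.ip_add_right, h.ip_comm z x]; omega), smul_zero, smul_zero]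
              · rw [EE_neg1 h hx (h.R_add hz hw q1) (by rw [D.ip_add_right]; omega),
                  EE_neg1 h hz (h.R_add hx hw t1) (by rw [D.ip_add_right, h.ip_comm z x]; omega), smul_smul, smul_smul,
                  D.bf_add_right, D.bf_add_right, sg_add, sg_add, show x + (z + w) = z + (x + w) by abel]
                have e2 := h.sg_swap x z
                rw [← t3, sg_zero] at e2
                have e3 := hs (D.bf x z)
                have e4 : sg (D.bf z x) = sg (D.bf x z) := by
                  calc sg (D.bf z x) = (sg (D.bf x z) * sg (D.bf x z)) * sg (D.bf z x) := by rw [e3, one_mul]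
                    _ = sg (D.bf x z) * (sg (D.bf x z) * sg (D.bf z x)) := by ring
                    _ = _ := by rw [e2]; ring
                rw [e4]
                congr 1
                ring
            · exact absurd t1 t2
            · rw [EE_neg1 h hz hw q1, EE_zero h hx hz p1, EE_zero h hx hw t1, map_smul, LinearMap.map_zero₂, map_zero,
                EE_zero h hx (h.R_add hz hw q1) (by rw [D.ip_add_right]; omega), smul_zero, add_zero]
        · exact absurd q1 q2
        · rw [EE_zero h hz hw q1, map_zero]
          rcases cs hx hz with p1 | p1 | p1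
          · rcases cs hx hw with t1 | t1 | t1
            · rw [EE_neg1 h hx hz p1, EE_neg1 h hx hw t1, LinearMap.map_smul₂, map_smul]
              rcases q1.lt_or_eq with t3 | t3
              · rw [EE_zero h (h.R_add hx hz p1) hw (by rw [D.ip_add_left]; omega),
                  EE_zero h hz (h.R_add hx hw t1) (by rw [D.ip_add_right, h.ip_comm z x]; omega), smul_zero, smul_zero,
                  add_zero]
              · rw [EE_neg1 h (h.R_add hx hz p1) hw (by rw [D.ip_add_left]; omega),
                  EE_neg1 h hz (h.R_add hx hw t1) (by rw [D.ip_add_right, h.ip_comm z x]; omega), smul_smul, smul_smul,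
                  D.bf_add_left, D.bf_add_right, sg_add, sg_add, show x + z + w = z + (x + w) by abel, ← add_smul]
                have e2 := h.sg_swap x z
                rw [p1, sg_neg_one] at e2
                have e4 : sg (D.bf x z) * (sg (D.bf x w) * sg (D.bf z w)) + sg (D.bf x w) * (sg (D.bf z x) * sg (D.bf z w)) =
                    sg (D.bf x w) * sg (D.bf z w) * (sg (D.bf x z) + sg (D.bf z x)) := by ring
                have e3 := hs (D.bf x z)
                have e5 : sg (D.bf z x) = -sg (D.bf x z) := by
                  calc sg (D.bf z x) = (sg (D.bf x z) * sg (D.bf x z)) * sg (D.bf z x) := by rw [e3, one_mul]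
                    _ = sg (D.bf x z) * (sg (D.bf x z) * sg (D.bf z x)) := by ring
                    _ = _ := by rw [e2]; ring
                rw [e4, e5, add_neg_cancel, mul_zero, zero_smul]
            · exact absurd t1 t2
            · rw [EE_neg1 h hx hz p1, EE_zero h hx hw t1, LinearMap.map_smul₂, map_zero,
                EE_zero h (h.R_add hx hz p1) hw (by rw [D.ip_add_left]; omega), smul_zero, add_zero]
          · exact absurd p1 p2
          · rw [EE_zero h hx hz p1, LinearMap.map_zero₂, zero_add]
            rcases cs hx hw with t1 | t1 | t1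
            · rw [EE_neg1 h hx hw t1, map_smul,
                EE_zero h hz (h.R_add hx hw t1) (by rw [D.ip_add_right, h.ip_comm z x]; omega), smul_zero]
            · exact absurd t1 t2
            · rw [EE_zero h hx hw t1, map_zero]

end RD

end C9
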